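import Mathlib

namespace Pool.Agent.MP_4faeaf_lc

open Cardinal Set

universe u

/-- A coherent sequence of finite-to-one maps. -/
theorem exists_coherent (W : Type u) [LinearOrder W] [WellFoundedLT W]
    (ct : ∀ x : W, (Iio x).Countable) :
    ∃ e : W → W → ℕ, (∀ η k, {ξ | ξ < η ∧ e η ξ ≤ k}.Finite) ∧
      ∀ ζ η, ζ ≤ η → {ξ | ξ < ζ ∧ e η ξ ≠ e ζ ξ}.Finite := by
  classical
  have h : ∀ η : W, ∃ x : ℕ → W, ∀ ξ < η, (∀ n, x n < η) ∧ ∃ n, ξ ≤ x n := by
    intro η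
    rcases (Iio η).eq_empty_or_nonempty with h | h
    · exact ⟨fun _ => η, fun ξ hξ => absurd (show ξ ∈ Iio η from hξ) (by simp [h])⟩
    · obtain ⟨x, hx⟩ := (ct η).exists_eq_range h
      refine ⟨x, fun ξ hξ => ⟨fun n => (hx ▸ mem_range_self n : x n ∈ Iio η), ?_⟩⟩
      obtain ⟨n, rfl⟩ : ξ ∈ range x := hx ▸ hξ
      exact ⟨n, le_rfl⟩
  choose x hx using h
  let e : W → W → ℕ := (wellFounded_lt (α := W)).fix fun η ih ξ =>
    if h : ξ < η then
      max (Nat.find (hx η ξ h).2) (ih (x η (Nat.find (hx η ξ h).2)) ((hx η ξ h).1 _) ξ)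
    else 0
  have he : ∀ η ξ (h : ξ < η),
      e η ξ = max (Nat.find (hx η ξ h).2) (e (x η (Nat.find (hx η ξ h).2)) ξ) := by
    intro η ξ h
    conv_lhs => simp only [e]; rw [WellFounded.fix_eq]
    rw [dif_pos h]
  have fin : ∀ η k, {ξ | ξ < η ∧ e η ξ ≤ k}.Finite := by
    intro η
    induction η using WellFoundedLT.induction with
    | ind η ih =>
      intro k
      rcases (Iio η).eq_empty_or_nonempty with h | ⟨ξ₀, h₀⟩
      · exact finite_empty.subset fun ξ hξ => h ▸ hξ.1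
      refine ((finite_Iic k).biUnion fun n _ =>
        (ih (x η n) ((hx η ξ₀ h₀).1 n) k).insert (x η n)).subset ?_
      rintro ξ ⟨h₁, h₂⟩
      rw [he η ξ h₁, max_le_iff] at h₂
      refine mem_biUnion (x := Nat.find (hx η ξ h₁).2) h₂.1 ?_
      rcases (Nat.find_spec (hx η ξ h₁).2).eq_or_lt with h | h
      exacts [Or.inl h, Or.inr ⟨h, h₂.2⟩]
  refine ⟨e, fin, fun ζ η => ?_⟩
  induction η using WellFoundedLT.induction generalizing ζ with
  | ind η ih =>
    intro hζ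
    rcases hζ.eq_or_lt with rfl | hζ
    · simp
    obtain ⟨hlt, n₀, hn₀⟩ := hx η ζ hζ
    have key : ∀ n, {ξ | ξ < ζ ∧ ξ < x η n ∧ e (x η n) ξ ≠ e ζ ξ}.Finite := by
      intro n
      rcases le_total ζ (x η n) with h | h
      · exact (ih _ (hlt n) ζ h).subset fun ξ hξ => ⟨hξ.1, hξ.2.2⟩
      · exact (ih _ hζ _ h).subset fun ξ hξ => ⟨hξ.2.1, hξ.2.2.symm⟩
    refine ((finite_Iic n₀).biUnion fun n _ =>
      ((fin (x η n) n).union (key n)).insert (x η n)).subset ?_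
    rintro ξ ⟨h₁, h₂⟩
    have h₃ := h₁.trans hζ
    rw [he η ξ h₃] at h₂
    refine mem_biUnion (x := Nat.find (hx η ξ h₃).2)
      (Nat.find_min' (hx η ξ h₃).2 (h₁.le.trans hn₀)) ?_
    rcases (Nat.find_spec (hx η ξ h₃).2).eq_or_lt with h | h
    · exact Or.inl h
    · right
      rcases le_total (e (x η (Nat.find (hx η ξ h₃).2)) ξ) (Nat.find (hx η ξ h₃).2) with h' | h'
      · exact Or.inl ⟨h, h'⟩
      · rw [max_eq_right h'] at h₂
        exact Or.inr ⟨h₁, h, h₂⟩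

theorem countable_codes {W : Type u} [LinearOrder W] (ct : ∀ x : W, (Iio x).Countable)
    {e : W → W → ℕ} (he : ∀ ζ η, ζ ≤ η → {ξ | ξ < ζ ∧ e η ξ ≠ e ζ ξ}.Finite) (δ : W) :
    (range fun η => {y : W × ℕ | y.1 < δ ∧ e η y.1 = y.2}).Countable := by
  have h₁ : (Iio δ ×ˢ (univ : Set ℕ)).Countable := (ct δ).prod countable_univ
  let c : W → Set (W × ℕ) := fun η => {y | y.1 < δ ∧ e η y.1 = y.2}
  refine (((ct δ).image c).union ((countable_ofPred_finite_subset h₁).image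
    fun t => symmDiff (c δ) t)).mono ?_
  rintro _ ⟨η, rfl⟩
  rcases lt_or_ge η δ with h | h
  · exact Or.inl ⟨η, h, rfl⟩
  · refine Or.inr ⟨symmDiff (c δ) (c η), ⟨?_, ?_⟩, by simp [c]⟩
    · refine (((he δ η h).image fun ξ => (ξ, e δ ξ)).union
        ((he δ η h).image fun ξ => (ξ, e η ξ))).subset ?_
      rintro ⟨ξ, k⟩ (⟨⟨h₂, h₅⟩, h₃⟩ | ⟨⟨h₂, h₅⟩, h₃⟩)
      · exact Or.inl ⟨ξ, ⟨h₂, fun h₄ => h₃ ⟨h₂, h₄.trans h₅⟩⟩, Prod.ext rfl h₅⟩
      · exact Or.inr ⟨ξ, ⟨h₂, fun h₄ => h₃ ⟨h₂, h₄.symm.trans h₅⟩⟩, Prod.ext rfl h₅⟩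
    · rintro ⟨ξ, k⟩ (⟨⟨h₂, -⟩, -⟩ | ⟨⟨h₂, -⟩, -⟩) <;> exact ⟨h₂, trivial⟩

/-- A measurable cardinal, as a well-order with a measure. -/
class Ms (X : Type u) [LinearOrder X] where
  U : Ultrafilter X
  wf : WellFoundedLT X
  comp : ∀ {ι : Type u} (s : ι → Set X), #ι < #X → (∀ i, s i ∈ U) → (⋂ i, s i) ∈ U
  np : ∀ x, {x} ∉ U
  small : ∀ x : X, #(Iio x) < #X
  unc : ℵ₀ < #X

variable {X : Type u} [LinearOrder X] [Ms X]

instance : WellFoundedLT X := Ms.wf

/-- The measure. -/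
abbrev UU (X : Type u) [LinearOrder X] [Ms X] : Ultrafilter X := Ms.U

theorem comp_ct {ι : Type*} [Countable ι] (s : ι → Set X) (h : ∀ i, s i ∈ UU X) :
    (⋂ i, s i) ∈ UU X := by
  rcases isEmpty_or_nonempty ι with h' | h'
  · rw [iInter_of_empty]; exact Filter.univ_mem
  obtain ⟨f, hf⟩ := exists_surjective_nat ι
  have := Ms.comp (ι := ULift.{u} ℕ) (fun n => s (f n.down)) (by simpa using Ms.unc) fun n => h _
  refine Filter.mem_of_superset this fun x hx => mem_iInter.2 fun i => ?_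
  obtain ⟨n, rfl⟩ := hf i
  exact mem_iInter.1 hx ⟨n⟩

theorem const_set {Z : Type u} (hZ : #Z < #X) (F : X → Set Z) :
    ∃ z, {α | F α = z} ∈ UU X := by
  refine ⟨{z | {α | z ∈ F α} ∈ UU X}, ?_⟩
  have : ∀ z, {α | z ∈ F α ↔ {α | z ∈ F α} ∈ UU X} ∈ UU X := by
    intro z
    by_cases h : {α | z ∈ F α} ∈ UU X
    · exact Filter.mem_of_superset h fun α hα => iff_of_true hα h
    · exact Filter.mem_of_superset (Ultrafilter.compl_mem_iff_notMem.2 h)
        fun α hα => iff_of_false hα h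
  refine Filter.mem_of_superset (Ms.comp _ hZ this) fun α hα => ?_
  ext z
  exact mem_iInter.1 hα z

theorem ne_mem (x : X) : {α | α ≠ x} ∈ UU X := Ultrafilter.compl_mem_iff_notMem.2 (Ms.np x)

theorem Ioi_mem (x : X) : Ioi x ∈ UU X := by
  refine Filter.mem_of_superset (Filter.inter_mem (Ms.comp (fun y : Iio x => {α | α ≠ y.1})
    (Ms.small x) fun y => ne_mem y.1) (ne_mem x)) fun α hα => ?_
  rcases lt_trichotomy α x with h | h | h
  · exact absurd rfl (mem_iInter.1 hα.1 ⟨α, h⟩)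
  · exact absurd h hα.2
  · exact h

theorem exists_reals_emb : ∃ (γ : X) (j : Set (ULift.{u} ℕ) ↪ X), ∀ A, j A < γ := by
  have h : #(Set (ULift.{u} ℕ)) < #X := by
    by_contra h
    obtain ⟨F⟩ := not_lt.1 h
    obtain ⟨z, hz⟩ := const_set (Z := ULift.{u} ℕ) (by simpa using Ms.unc) F
    obtain ⟨α, hα⟩ := Ultrafilter.nonempty_of_mem hz
    exact Ms.np α (Filter.mem_of_superset hz fun β hβ => F.injective (hβ.trans hα.symm))
  obtain ⟨j⟩ := h.le
  obtain ⟨γ, hγ⟩ := Ultrafilter.nonempty_of_mem (Ms.comp (fun A => Ioi (j A)) h fun A => Ioi_mem _)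
  exact ⟨γ, j, fun A => mem_iInter.1 hγ A⟩

theorem exists_unc : ∃ x : X, ¬ (Iio x).Countable := by
  obtain ⟨γ, j, h⟩ := exists_reals_emb (X := X)
  refine ⟨γ, fun hc => ?_⟩
  have h₁ : (univ : Set (Set (ULift.{u} ℕ))).Countable :=
    (hc.preimage j.injective).mono fun A _ => h A
  have h₂ := mk_le_aleph0_iff.2 (countable_univ_iff.1 h₁)
  have h₃ := cantor #(ULift.{u} ℕ)
  rw [← mk_set] at h₃
  simpa using h₃.trans_le h₂

variable (X) in
/-- The first uncountable ordinal inside `X`. -/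
noncomputable def w1 : X := wellFounded_lt.min {x : X | ¬ (Iio x).Countable} exists_unc

theorem w1_unc : ¬ (Iio (w1 X)).Countable :=
  wellFounded_lt.min_mem {x : X | ¬ (Iio x).Countable} exists_unc

theorem ct_of_lt {x : X} (h : x < w1 X) : (Iio x).Countable := by
  by_contra h'
  exact wellFounded_lt.not_lt_min {x : X | ¬ (Iio x).Countable} h' h

variable (X) in
/-- The countable ordinals. -/
abbrev W : Type u := Iio (w1 X)

theorem W.ct (x : W X) : (Iio x).Countable :=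
  ((ct_of_lt x.2).preimage Subtype.val_injective).mono fun _ h => h

theorem W.exists_gt {s : Set (W X)} (hs : s.Countable) : ∃ b, ∀ x ∈ s, x < b := by
  by_contra h
  push Not at h
  refine w1_unc (X := X) (((hs.biUnion fun x _ => (W.ct x).insert x).image Subtype.val).mono ?_)
  intro b hb
  obtain ⟨x, hx, h'⟩ := h ⟨b, hb⟩
  exact ⟨⟨b, hb⟩, mem_biUnion hx h'.eq_or_lt, rfl⟩

theorem W.exists_gt' (x : W X) : ∃ b, x < b := by
  obtain ⟨b, hb⟩ := W.exists_gt (countable_singleton x)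
  exact ⟨b, hb x rfl⟩

instance : Nonempty (W X) := by
  obtain ⟨b, -⟩ := W.exists_gt (X := X) countable_empty
  exact ⟨b⟩

variable (X) in
noncomputable def w0 : W X := wellFounded_lt.min univ univ_nonempty

theorem not_lt_w0 (x : W X) : ¬ x < w0 X := wellFounded_lt.not_lt_min univ (mem_univ x)

theorem mk_W : #(W X) < #X := Ms.small _

end Pool.Agent.MP_4faeaf_lc
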