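import Pool.Agent.MP_4faeaf_lc.Base

namespace Pool.Agent.MP_4faeaf_lc

open Cardinal Set

universe u

/-- Conditions: a countable piece of a Kurepa family together with a piece of the collapse. -/
structure Cond (X : Type u) [LinearOrder X] [Ms X] where
  δ : W X
  a : Set X
  f : X → Set (W X)
  c : Set (X × X × W X)
  a_ct : a.Countable
  a_ne : w1 X ∈ a
  f_lt : ∀ α, ∀ ξ ∈ f α, ξ < δ
  c_ct : c.Countable
  c_lt : ∀ z ∈ c, z.2.1 < z.1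
  c_fun : ∀ z ∈ c, ∀ z' ∈ c, z.1 = z'.1 → (z.2.1 = z'.2.1 ↔ z.2.2 = z'.2.2)

variable {X : Type u} [LinearOrder X] [Ms X]

namespace Cond

structure Ext (q p : Cond X) : Prop where
  δ : p.δ ≤ q.δ
  a : p.a ⊆ q.a
  f : ∀ α ∈ p.a, ∀ ξ < p.δ, (ξ ∈ q.f α ↔ ξ ∈ p.f α)
  k : ∀ β ∈ q.a, ∃ α ∈ p.a, ∀ ξ < p.δ, (ξ ∈ q.f β ↔ ξ ∈ p.f α)
  c : p.c ⊆ q.c

instance : Preorder (Cond X) where
  le := Ext
  le_refl p := ⟨le_rfl, Subset.rfl, fun _ _ _ _ => Iff.rfl, fun β h => ⟨β, h, fun _ _ => Iff.rfl⟩,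
    Subset.rfl⟩
  le_trans r q p h₁ h₂ := by
    refine ⟨h₂.δ.trans h₁.δ, h₂.a.trans h₁.a, fun α hα ξ hξ => ?_, fun β hβ => ?_,
      h₂.c.trans h₁.c⟩
    · exact (h₁.f α (h₂.a hα) ξ (hξ.trans_le h₂.δ)).trans (h₂.f α hα ξ hξ)
    · obtain ⟨α, hα, e⟩ := h₁.k β hβ
      obtain ⟨α', hα', e'⟩ := h₂.k α hα
      exact ⟨α', hα', fun ξ hξ => (e ξ (hξ.trans_le h₂.δ)).trans (e' ξ hξ)⟩

noncomputable instance : OrderTop (Cond X) where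
  top := ⟨w0 X, {w1 X}, fun _ => ∅, ∅, countable_singleton _, rfl, by simp, countable_empty,
    by simp, by simp⟩
  le_top p := ⟨not_lt.1 (not_lt_w0 _), by rintro _ rfl; exact p.a_ne,
    fun _ _ _ h => absurd h (not_lt_w0 _), fun _ _ => ⟨_, rfl, fun _ h => absurd h (not_lt_w0 _)⟩,
    empty_subset _⟩

theorem closed' (s : ℕ → Cond X) (hs : Antitone s) :
    ∃ q : Cond X, (∀ n, q ≤ s n) ∧ ∀ α ∈ q.a, ∃ n, α ∈ (s n).a := by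
  have hle : ∀ n m, Ext (s (max n m)) (s n) ∧ Ext (s (max n m)) (s m) := fun n m =>
    ⟨hs (le_max_left _ _), hs (le_max_right _ _)⟩
  obtain ⟨b, hb⟩ := W.exists_gt (countable_range fun n => (s n).δ)
  replace hb : ∀ n, (s n).δ < b := fun n => hb _ ⟨n, rfl⟩
  have hf : ∀ n, ∀ α ∈ (s n).a, ∀ ξ < (s n).δ,
      ((∃ m, α ∈ (s m).a ∧ ξ ∈ (s m).f α) ↔ ξ ∈ (s n).f α) := by
    intro n α hα ξ hξ
    refine ⟨fun ⟨m, h₁, h₂⟩ => ?_, fun h => ⟨n, hα, h⟩⟩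
    exact ((hle n m).1.f α hα ξ hξ).1 (((hle n m).2.f α h₁ ξ ((s m).f_lt _ _ h₂)).2 h₂)
  refine ⟨⟨b, ⋃ n, (s n).a, fun α => {ξ | ∃ m, α ∈ (s m).a ∧ ξ ∈ (s m).f α}, ⋃ n, (s n).c,
    countable_iUnion fun n => (s n).a_ct, mem_iUnion.2 ⟨0, (s 0).a_ne⟩,
    fun α ξ ⟨m, _, h⟩ => ((s m).f_lt _ _ h).trans (hb m),
    countable_iUnion fun n => (s n).c_ct, ?_, ?_⟩,
    fun n => ⟨(hb n).le, subset_iUnion (fun n => (s n).a) n, hf n, fun β hβ => ?_,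
      subset_iUnion (fun n => (s n).c) n⟩, fun α h => mem_iUnion.1 h⟩
  · intro z hz
    obtain ⟨n, hn⟩ := mem_iUnion.1 hz
    exact (s n).c_lt z hn
  · intro x hx y hy
    obtain ⟨n, hn⟩ := mem_iUnion.1 hx
    obtain ⟨m, hm⟩ := mem_iUnion.1 hy
    exact (s (max n m)).c_fun x ((hle n m).1.c hn) y ((hle n m).2.c hm)
  · obtain ⟨m, hm⟩ := mem_iUnion.1 hβ
    have h₁ := (hle n m).2.a hm
    obtain ⟨α, hα, e⟩ := (hle n m).1.k β h₁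
    exact ⟨α, hα, fun ξ hξ => (hf _ β h₁ ξ (hξ.trans_le (hle n m).1.δ)).trans (e ξ hξ)⟩

theorem closed (s : ℕ → Cond X) (hs : Antitone s) : ∃ q, ∀ n, q ≤ s n :=
  let ⟨q, h, _⟩ := closed' s hs
  ⟨q, h⟩

theorem add_idx (p : Cond X) (β : X) : ∃ q ≤ p, β ∈ q.a := by
  classical
  by_cases h : β ∈ p.a
  · exact ⟨p, le_rfl, h⟩
  refine ⟨⟨p.δ, insert β p.a, fun α => if α = β then p.f (w1 X) else p.f α, p.c, p.a_ct.insert _,
    Or.inr p.a_ne, fun α ξ hξ => ?_, p.c_ct, p.c_lt, p.c_fun⟩,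
    ⟨le_rfl, subset_insert _ _, fun α hα ξ _ => ?_, fun α hα => ?_, Subset.rfl⟩, mem_insert _ _⟩
  · split_ifs at hξ <;> exact p.f_lt _ _ hξ
  · have : α ≠ β := fun e => h (e ▸ hα)
    simp [this]
  · by_cases e : α = β
    · exact ⟨w1 X, p.a_ne, fun ξ _ => by simp [e]⟩
    · exact ⟨α, hα.resolve_left e, fun ξ _ => by simp [e]⟩

theorem raise (p : Cond X) (η : W X) : ∃ q ≤ p, η < q.δ := by
  obtain ⟨b, hb⟩ := W.exists_gt' (max η p.δ)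
  have h : p.δ < b := (le_max_right _ _).trans_lt hb
  exact ⟨⟨b, p.a, p.f, p.c, p.a_ct, p.a_ne, fun α ξ hξ => (p.f_lt _ _ hξ).trans h, p.c_ct, p.c_lt,
    p.c_fun⟩, ⟨h.le, Subset.rfl, fun _ _ _ _ => Iff.rfl, fun β h => ⟨β, h, fun _ _ => Iff.rfl⟩,
    Subset.rfl⟩, (le_max_left _ _).trans_lt hb⟩

/-- The condition decides that two branches differ at `η`. -/
def Diff (p : Cond X) (α β : X) (η : W X) : Prop :=
  α ∈ p.a ∧ β ∈ p.a ∧ η < p.δ ∧ ¬ (η ∈ p.f α ↔ η ∈ p.f β)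

theorem Diff.mono {p q : Cond X} {α β : X} {η : W X} (h : p.Diff α β η) (hq : q ≤ p) :
    q.Diff α β η :=
  ⟨hq.a h.1, hq.a h.2.1, h.2.2.1.trans_le hq.δ, by
    rw [hq.f α h.1 η h.2.2.1, hq.f β h.2.1 η h.2.2.1]; exact h.2.2.2⟩

theorem split (p : Cond X) {α β : X} (h : α ≠ β) : ∃ q ≤ p, ∃ η, q.Diff α β η := by
  classical
  obtain ⟨p₁, h₁, hα⟩ := p.add_idx α
  obtain ⟨r, h₂, hβ⟩ := p₁.add_idx β
  obtain ⟨b, hb⟩ := W.exists_gt' r.δ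
  have e : ∀ γ, ∀ ξ < r.δ, (ξ ∈ (if γ = β then insert r.δ (r.f γ) else r.f γ) ↔ ξ ∈ r.f γ) := by
    intro γ ξ hξ
    split_ifs
    · simp [hξ.ne]
    · rfl
  refine ⟨⟨b, r.a, fun γ => if γ = β then insert r.δ (r.f γ) else r.f γ, r.c, r.a_ct, r.a_ne,
    fun γ ξ hξ => ?_, r.c_ct, r.c_lt, r.c_fun⟩,
    le_trans (show Ext _ r from ⟨hb.le, Subset.rfl, fun γ _ => e γ, fun γ hγ => ⟨γ, hγ, e γ⟩,
      Subset.rfl⟩) (h₂.trans h₁), r.δ, h₂.a hα, hβ, hb, ?_⟩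
  · split_ifs at hξ
    · rcases hξ with rfl | hξ
      exacts [hb, (r.f_lt _ _ hξ).trans hb]
    · exact (r.f_lt _ _ hξ).trans hb
  · have : r.δ ∉ r.f α := fun h => lt_irrefl _ (r.f_lt _ _ h)
    simp [h, this]

theorem add_dom (p : Cond X) {γ x : X} (hx : x < γ) : ∃ q ≤ p, ∃ ξ, (γ, x, ξ) ∈ q.c := by
  by_cases h : ∃ ξ, (γ, x, ξ) ∈ p.c
  · exact ⟨p, le_rfl, h⟩
  push Not at h
  obtain ⟨ξ, hξ⟩ := W.exists_gt (p.c_ct.image fun z => z.2.2)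
  have h₁ : ∀ z ∈ p.c, γ = z.1 → ¬ x = z.2.1 := by
    rintro ⟨_, _, ζ⟩ hz rfl rfl
    exact h ζ hz
  have h₂ : ∀ z ∈ p.c, ¬ ξ = z.2.2 := fun z hz e => (hξ _ ⟨z, hz, rfl⟩).ne e.symm
  refine ⟨⟨p.δ, p.a, p.f, insert (γ, x, ξ) p.c, p.a_ct, p.a_ne, p.f_lt, p.c_ct.insert _,
    ?_, ?_⟩, ⟨le_rfl, Subset.rfl, fun _ _ _ _ => Iff.rfl, fun β h => ⟨β, h, fun _ _ => Iff.rfl⟩,
      subset_insert _ _⟩, ξ, mem_insert _ _⟩
  · rintro z (rfl | hz)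
    exacts [hx, p.c_lt z hz]
  · rintro z (rfl | hz) z' (rfl | hz') e
    · simp
    · exact iff_of_false (h₁ z' hz' e) (h₂ z' hz')
    · exact iff_of_false (fun e' => h₁ z hz e.symm e'.symm) (fun e' => h₂ z hz e'.symm)
    · exact p.c_fun z hz z' hz' e

/-- The support of a condition. -/
def supp (p : Cond X) : Set X := p.a ∪ ((fun z => z.1) '' p.c ∪ (fun z => z.2.1) '' p.c)

theorem amalg (p q : Cond X) (x y : ℕ → X) (hx : p.supp = range x) (hy : q.supp = range y)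
    (hδ : p.δ = q.δ) (ha : ∀ n, x n ∈ p.a ↔ y n ∈ q.a) (hf : ∀ n, p.f (x n) = q.f (y n))
    (hc : ∀ n m ξ, (x n, x m, ξ) ∈ p.c ↔ (y n, y m, ξ) ∈ q.c)
    (h : ∀ n, x n = y n ∨ ∀ m, x m < y n) : ∃ r, r ≤ p ∧ r ≤ q := by
  classical
  have h₁ : ∀ n m, y n ≤ x m → x n = y n := fun n m e =>
    (h n).resolve_right fun h' => (h' m).not_ge e
  have sa : ∀ α ∈ p.a, ∃ n, x n = α := fun α h => hx.le (Or.inl h)
  have sb : ∀ α ∈ q.a, ∃ n, y n = α := fun α h => hy.le (Or.inl h)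
  have key : ∀ z ∈ p.c, ∀ z' ∈ q.c, z.1 = z'.1 → z' ∈ p.c := by
    rintro ⟨γ, a, ξ⟩ hz ⟨γ', b, ξ'⟩ hz' e
    obtain ⟨k, rfl⟩ : γ ∈ range x := hx.le (Or.inr (Or.inl ⟨_, hz, rfl⟩))
    obtain ⟨n, rfl⟩ : γ' ∈ range y := hy.le (Or.inr (Or.inl ⟨_, hz', rfl⟩))
    obtain ⟨m, rfl⟩ : b ∈ range y := hy.le (Or.inr (Or.inr ⟨_, hz', rfl⟩))
    have e₁ : x k = y n := e
    have e₂ : y m < y n := q.c_lt _ hz'
    rw [← h₁ n k e₁.ge, ← h₁ m k (e₁ ▸ e₂.le)]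
    exact (hc n m ξ').2 hz'
  have hq : ∀ β ∈ q.a, (if β ∈ p.a then p.f β else q.f β) = q.f β := by
    intro β hβ
    split_ifs with h'
    · obtain ⟨n, rfl⟩ := sb β hβ
      obtain ⟨m, hm⟩ := sa _ h'
      rw [← hf n, h₁ n m hm.ge]
    · rfl
  refine ⟨⟨p.δ, p.a ∪ q.a, fun α => if α ∈ p.a then p.f α else q.f α, p.c ∪ q.c,
    p.a_ct.union q.a_ct, Or.inl p.a_ne, fun α ξ hξ => ?_, p.c_ct.union q.c_ct, ?_, ?_⟩,
    ⟨le_rfl, subset_union_left, fun α hα ξ _ => by simp [hα], fun β hβ => ?_, subset_union_left⟩,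
    ⟨hδ.ge, subset_union_right, fun α hα ξ _ => by simp only [hq α hα], fun β hβ => ?_,
      subset_union_right⟩⟩
  · split_ifs at hξ
    exacts [p.f_lt _ _ hξ, hδ ▸ q.f_lt _ _ hξ]
  · rintro z (hz | hz)
    exacts [p.c_lt z hz, q.c_lt z hz]
  · rintro z (hz | hz) z' (hz' | hz') e
    · exact p.c_fun z hz z' hz' e
    · exact p.c_fun z hz z' (key z hz z' hz' e) e
    · exact p.c_fun z (key z' hz' z hz e.symm) z' hz' e
    · exact q.c_fun z hz z' hz' e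
  · rcases hβ with hβ | hβ
    · exact ⟨β, hβ, fun ξ _ => by simp [hβ]⟩
    · obtain ⟨n, rfl⟩ := sb β hβ
      exact ⟨x n, (ha n).2 hβ, fun ξ _ => by simp only [hq _ hβ, hf]⟩
  · rcases hβ with hβ | hβ
    · obtain ⟨n, rfl⟩ := sa β hβ
      exact ⟨y n, (ha n).1 hβ, fun ξ _ => by simp [hβ, hf]⟩
    · exact ⟨β, hβ, fun ξ _ => by simp only [hq _ hβ]⟩

theorem cc (q : X → Cond X) : ∃ α β, α ≠ β ∧ ∃ r, r ≤ q α ∧ r ≤ q β := by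
  have hs : ∀ α, ∃ x : ℕ → X, (q α).supp = range x := fun α =>
    ((q α).a_ct.union (((q α).c_ct.image _).union ((q α).c_ct.image _))).exists_eq_range
      ⟨_, Or.inl (q α).a_ne⟩
  choose x hx using hs
  let Z := ULift.{u} (ℕ × ℕ × ℕ) × W X
  have hZ : #Z < #X := by
    simp only [Z, mk_prod, lift_id, mk_eq_aleph0]
    exact mul_lt_of_lt Ms.unc.le Ms.unc mk_W
  let T : X → Set Z := fun α => {z | (z.1.down.1 = 0 ∧ z.2 = (q α).δ) ∨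
    (z.1.down.1 = 1 ∧ x α z.1.down.2.1 ∈ (q α).a) ∨
    (z.1.down.1 = 2 ∧ z.2 ∈ (q α).f (x α z.1.down.2.1)) ∨
    (z.1.down.1 = 3 ∧ (x α z.1.down.2.1, x α z.1.down.2.2, z.2) ∈ (q α).c)}
  obtain ⟨t, ht⟩ := const_set hZ T
  have hn : ∀ n, ∃ Y ∈ UU X, (∀ α ∈ Y, ∀ β ∈ Y, x α n = x β n) ∨
      ∀ y, {β | y < x β n} ∈ UU X := by
    intro n
    by_cases h : ∃ y, {β | x β n = y} ∈ UU X
    · obtain ⟨y, hy⟩ := h
      exact ⟨_, hy, Or.inl fun α hα β hβ => hα.trans hβ.symm⟩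
    · refine ⟨univ, Filter.univ_mem, Or.inr fun y => ?_⟩
      have h' : ∀ y, {β | x β n ≠ y} ∈ UU X := fun y =>
        Ultrafilter.compl_mem_iff_notMem.2 fun h' => h ⟨y, h'⟩
      refine Filter.mem_of_superset (Filter.inter_mem (Ms.comp
        (fun z : Iio y => {β | x β n ≠ z.1}) (Ms.small y) fun z => h' z.1) (h' y)) fun β hβ => ?_
      rcases lt_trichotomy (x β n) y with h | h | h
      · exact absurd rfl (mem_iInter.1 hβ.1 ⟨_, h⟩)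
      · exact absurd h hβ.2
      · exact h
  choose Y hY hY' using hn
  have hA := Filter.inter_mem ht (comp_ct Y hY)
  obtain ⟨α, hα⟩ := Ultrafilter.nonempty_of_mem hA
  have hB : (⋂ z : ℕ × ℕ, {β | β ∈ Y z.1 → x α z.1 = x β z.1 ∨ x α z.2 < x β z.1}) ∈ UU X := by
    refine comp_ct _ fun z => ?_
    rcases hY' z.1 with h | h
    · exact Filter.univ_mem' fun β hβ => Or.inl (h α (mem_iInter.1 hα.2 _) β hβ)
    · exact Filter.mem_of_superset (h _) fun β hβ _ => Or.inr hβ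
  obtain ⟨β, ⟨hβ, hβ'⟩, hne⟩ :=
    Ultrafilter.nonempty_of_mem (Filter.inter_mem (Filter.inter_mem hA hB) (ne_mem α))
  have e : ∀ z, z ∈ T α ↔ z ∈ T β := fun z => by rw [show T α = t from hα.1, show T β = t from hβ.1]
  refine ⟨α, β, fun h => hne h.symm, amalg _ _ (x α) (x β) (hx α) (hx β) ?_ (fun n => ?_)
    (fun n => ?_) (fun n m ξ => ?_) fun n => ?_⟩
  · simpa [T] using e (⟨0, 0, 0⟩, (q α).δ)
  · simpa [T] using e (⟨1, n, 0⟩, (q α).δ)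
  · ext ξ
    simpa [T] using e (⟨2, n, 0⟩, ξ)
  · simpa [T] using e (⟨3, n, m⟩, ξ)
  · by_cases h : x α n = x β n
    · exact Or.inl h
    · exact Or.inr fun m => (mem_iInter.1 hβ' (n, m) (mem_iInter.1 hβ.2 n)).resolve_left h

/-- Every set of conditions has a small predense subset. -/
theorem small_predense (D : Set (Cond X)) :
    ∃ D' ⊆ D, #D' < #X ∧ ∀ p ∈ D, ∃ d ∈ D', ∃ r, r ≤ p ∧ r ≤ d := by
  obtain ⟨A, hA⟩ := zorn_subset {A : Set (Cond X) | A ⊆ D ∧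
      ∀ p ∈ A, ∀ q ∈ A, (∃ r, r ≤ p ∧ r ≤ q) → p = q} (by
    intro c hc hch
    refine ⟨⋃₀ c, ⟨sUnion_subset fun A hA => (hc hA).1, ?_⟩, fun A hA => subset_sUnion_of_mem hA⟩
    rintro p ⟨A, hA, hp⟩ q ⟨B, hB, hq⟩
    rcases hch.total hA hB with h | h
    exacts [(hc hB).2 p (h hp) q hq, (hc hA).2 p hp q (h hq)])
  refine ⟨A, hA.1.1, ?_, fun p hp => ?_⟩
  · by_contra h
    obtain ⟨F⟩ := not_lt.1 h
    obtain ⟨α, β, hne, h⟩ := cc fun α => (F α).1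
    exact hne (F.injective (Subtype.ext (hA.1.2 _ (F α).2 _ (F β).2 h)))
  · by_contra h
    push Not at h
    have : insert p A ⊆ A := hA.2 ⟨insert_subset hp hA.1.1, by
      rintro a (rfl | ha) b (rfl | hb) ⟨r, h₁, h₂⟩
      · rfl
      · exact absurd h₂ (h b hb r h₁)
      · exact absurd h₁ (h a ha r h₂)
      · exact hA.1.2 a ha b hb ⟨r, h₁, h₂⟩⟩ (subset_insert _ _)
    exact h p (this (mem_insert _ _)) p le_rfl le_rfl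

theorem reduction (p : Cond X) (q : X → Cond X) {Y : Set X} (hY : Y ∈ UU X)
    (hq : ∀ α ∈ Y, q α ≤ p) :
    ∃ p' ≤ p, ∀ p'' ≤ p', {α | ∃ r, r ≤ q α ∧ r ≤ p''} ∈ UU X := by
  by_contra h
  push Not at h
  obtain ⟨D, hD, hs, H⟩ := small_predense {d | {α | ∃ r, r ≤ q α ∧ r ≤ d} ∉ UU X}
  obtain ⟨α, h₁, h₂⟩ := Ultrafilter.nonempty_of_mem (Filter.inter_mem hY (Ms.comp
    (fun d : D => {α | ∃ r, r ≤ q α ∧ r ≤ d.1}ᶜ) hs
    fun d => Ultrafilter.compl_mem_iff_notMem.2 (hD d.2)))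
  obtain ⟨p', hp', h'⟩ := h (q α) (hq α h₁)
  obtain ⟨d, hd, r, h₃, h₄⟩ := H p' h'
  exact mem_iInter.1 h₂ ⟨d, hd⟩ ⟨r, h₃.trans hp', h₄⟩

end Cond

end Pool.Agent.MP_4faeaf_lc
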