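import Pool.Agent.MP_c6cf52_lc.Tools

namespace Pool.Agent.MP_4faeaf_lc

open Pool.Agent.MP_c6cf52_lc Pool.Agent.MP_c6cf52_lc.Name

universe u v

section Rank

variable {P : Type u} [Preorder P]

/-- The condition forces that the rank is at most `ξ`. -/
def Rk : Name P → P → Ordinal.{u} → Prop
  | .mk _ A B, p, ξ => ∀ i, ∀ q ≤ p, q ≤ B i → ∃ r ≤ q, ∃ ζ < ξ, Rk (A i) r ζ

theorem rk_def (τ : Name P) (p : P) (ξ : Ordinal.{u}) :
    Rk τ p ξ ↔ ∀ i, ∀ q ≤ p, q ≤ τ.B i → ∃ r ≤ q, ∃ ζ < ξ, Rk (τ.A i) r ζ := by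
  cases τ; rfl

theorem Rk.mono {τ : Name P} {p q : P} {ξ : Ordinal.{u}} (h : Rk τ p ξ) (hq : q ≤ p) :
    Rk τ q ξ := by
  rw [rk_def] at h ⊢
  exact fun i r hr => h i r (hr.trans hq)

theorem exists_rk (τ : Name P) : ∃ ξ, ∀ p, Rk τ p ξ := by
  induction τ using Name.ind with
  | h τ ih =>
    choose ζ hζ using ih
    refine ⟨⨆ i, Order.succ (ζ i), fun p => (rk_def _ _ _).2 fun i q _ _ =>
      ⟨q, le_rfl, ζ i, ?_, hζ i q⟩⟩
    exact Order.lt_succ (ζ i) |>.trans_le (Ordinal.le_iSup (fun i => Order.succ (ζ i)) i)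

theorem Rk.of_feq : ∀ {σ τ : Name P} {p : P} {ξ : Ordinal.{u}},
    FEq σ τ p → Rk τ p ξ → Rk σ p ξ := by
  intro σ
  induction σ using Name.ind with
  | h σ ih =>
    intro τ p ξ e h
    rw [rk_def] at h ⊢
    intro i q hq hi
    obtain ⟨r, hr, j, hj, e'⟩ := ((feq_def _ _ _).1 e).1 i q hq hi
    obtain ⟨s, hs, ζ, hζ, h'⟩ := h j r (hr.trans hq) hj
    exact ⟨s, hs.trans hr, ζ, hζ, ih i (e'.mono hs) h'⟩

/-- The condition decides the rank. -/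
def Dec (τ : Name P) (p : P) (ξ : Ordinal.{u}) : Prop :=
  Rk τ p ξ ∧ ∀ r ≤ p, ∀ ζ < ξ, ¬ Rk τ r ζ

theorem Dec.mono {τ : Name P} {p q : P} {ξ : Ordinal.{u}} (h : Dec τ p ξ) (hq : q ≤ p) :
    Dec τ q ξ := ⟨h.1.mono hq, fun r hr => h.2 r (hr.trans hq)⟩

theorem dec_dense (τ : Name P) (p : P) : ∃ q ≤ p, ∃ ξ, Dec τ q ξ := by
  obtain ⟨ξ₀, h₀⟩ := exists_rk τ
  obtain ⟨ξ, ⟨q, hq, h⟩, hmin⟩ := wellFounded_lt.has_min {ξ | ∃ q ≤ p, Rk τ q ξ}
    ⟨ξ₀, p, le_rfl, h₀ p⟩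
  exact ⟨q, hq, ξ, h, fun r hr ζ hζ h' => hmin ζ ⟨r, hr.trans hq, h'⟩ hζ⟩

theorem dec_lt {σ τ : Name P} {p : P} {ζ ξ : Ordinal.{u}} (h : FMem σ τ p) (h₁ : Dec σ p ζ)
    (h₂ : Dec τ p ξ) : ζ < ξ := by
  obtain ⟨r, hr, j, hj, e⟩ := h p le_rfl
  obtain ⟨s, hs, ζ', hζ, h'⟩ := (rk_def _ _ _).1 h₂.1 j r hr hj
  exact (not_lt.1 fun h'' => h₁.2 s (hs.trans hr) ζ' h'' (Rk.of_feq (e.mono hs) h')).trans_lt hζ

theorem feq_refl (τ : Name P) : ∀ p, FEq τ τ p := by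
  induction τ using Name.ind with
  | h τ ih =>
    exact fun p => (feq_def _ _ _).2 ⟨fun i q _ h => ⟨q, le_rfl, i, h, ih i q⟩,
      fun i q _ h => ⟨q, le_rfl, i, h, ih i q⟩⟩

end Rank

theorem exists_generic' {P : Type u} [Preorder P] {α : Type v} [Inhabited α] {ι : Type*}
    [Countable ι] [Nonempty ι] (D : ι → List α → P → α → Prop)
    (hD : ∀ i l p, ∃ q ≤ p, ∃ a, D i l q a) (p₀ : P) :
    ∃ (N : Set α) (s : ℕ → P), N.Countable ∧ Antitone s ∧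
      ∀ i l, (∀ x ∈ l, x ∈ N) → ∃ n, ∃ a ∈ N, D i l (s n) a := by
  classical
  obtain ⟨e, he⟩ := exists_surjective_nat (ι × List ℕ)
  choose q hq a ha using hD
  let step : ℕ → P × (ℕ → α) → P × (ℕ → α) := fun n st =>
    (q (e n.unpair.1).1 ((e n.unpair.1).2.map st.2) st.1,
      Function.update st.2 n (a (e n.unpair.1).1 ((e n.unpair.1).2.map st.2) st.1))
  let S : ℕ → P × (ℕ → α) := fun n => Nat.rec (p₀, fun _ => default) step n
  have hS : ∀ n, S (n + 1) = step n (S n) := fun n => rfl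
  let τ : ℕ → α := fun n => (S (n + 1)).2 n
  have stable : ∀ k n, k < n → (S n).2 k = τ k := by
    intro k n hkn
    induction n, hkn using Nat.le_induction with
    | base => rfl
    | succ n hn ih =>
      rw [hS]
      simp only [step]
      rw [Function.update_of_ne (by omega)]
      exact ih
  refine ⟨Set.range τ, fun n => (S n).1, Set.countable_range _,
    antitone_nat_of_succ_le fun n => ?_, ?_⟩
  · rw [hS]; exact hq _ _ _
  · intro i l hl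
    obtain ⟨ks, rfl⟩ : ∃ ks : List ℕ, l = ks.map τ := by
      induction l with
      | nil => exact ⟨[], rfl⟩
      | cons x l ih =>
        obtain ⟨ks, rfl⟩ := ih fun y hy => hl y (List.mem_cons_of_mem _ hy)
        obtain ⟨k, rfl⟩ := hl x List.mem_cons_self
        exact ⟨k :: ks, rfl⟩
    obtain ⟨m, hm⟩ := he (i, ks)
    let n := Nat.pair m (ks.sum + 1)
    have hn : ks.map (S n).2 = ks.map τ := by
      refine List.map_congr_left fun k hk => stable k n ?_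
      have h₁ := List.single_le_sum (l := ks) (fun _ _ => Nat.zero_le _) k hk
      have h₂ := Nat.right_le_pair m (ks.sum + 1)
      omega
    refine ⟨n + 1, τ n, ⟨n, rfl⟩, ?_⟩
    have h := ha i (ks.map τ) (S n).1
    have e1 : n.unpair.1 = m := by simp [n]
    have e2 : (S (n + 1)).1 = q i (ks.map τ) (S n).1 := by
      rw [hS]; simp only [step, e1, hm, hn]
    have e3 : τ n = a i (ks.map τ) (S n).1 := by
      show (S (n + 1)).2 n = _
      rw [hS]; simp only [step, e1, hm, hn, Function.update_self]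
    show D i (ks.map τ) (S (n + 1)).1 (τ n)
    rw [e2, e3]
    exact h

theorem exists_gen' {P : Type u} [Preorder P] [OrderTop P] (C : Set (Name P))
    (hC : C.Countable) (F : Name P → Name P) :
    ∃ g : Gen P, g.N.Countable ∧ C ⊆ g.N ∧ ∀ σ ∈ g.N, F σ ∈ g.N := by
  have := hC.to_subtype
  let D : ((ℕ × Fml × ℕ) ⊕ C) ⊕ Unit → List (Name P) → P → Name P → Prop := fun i l q ρ =>
    match i with
    | .inl (.inl i) => Name.basic i.1 i.2.1 i.2.2 l q ρ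
    | .inl (.inr c) => ρ = c.1
    | .inr _ => ρ = F (env emp l 0)
  have : Nonempty (((ℕ × Fml × ℕ) ⊕ C) ⊕ Unit) := ⟨.inr ()⟩
  obtain ⟨N, s, hN, hs, h⟩ := exists_generic' D (by
    rintro ((i | c) | c) l p
    · exact Name.basic_dense _ _ _ _ _
    · exact ⟨p, le_rfl, _, rfl⟩
    · exact ⟨p, le_rfl, _, rfl⟩) ⊤
  refine ⟨⟨N, {q | ∃ n, s n ≤ q}, ?_, ?_, ⟨0, le_top⟩, ?_⟩, hN, ?_, ?_⟩
  · rintro p q ⟨n, hn⟩ hpq
    exact ⟨n, hn.trans hpq⟩
  · rintro p q ⟨n, hn⟩ ⟨m, hm⟩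
    exact ⟨s (max n m), ⟨_, le_rfl⟩, (hs (le_max_left _ _)).trans hn,
      (hs (le_max_right _ _)).trans hm⟩
  · intro t φ k l hl
    obtain ⟨n, a, ha, h⟩ := h (.inl (.inl (t, φ, k))) l hl
    exact ⟨s n, ⟨n, le_rfl⟩, a, ha, h⟩
  · intro c hc
    obtain ⟨n, a, ha, h⟩ := h (.inl (.inr ⟨c, hc⟩)) [] (by simp)
    exact (show a = c from h) ▸ ha
  · intro σ hσ
    obtain ⟨n, a, ha, h⟩ := h (.inr ()) [σ] (by simpa using hσ)
    exact (show a = F σ from h) ▸ ha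

theorem countable_M {P : Type u} [Preorder P] [OrderTop P] {g : Gen P} (h : g.N.Countable) :
    Countable g.M := by
  have := h.to_subtype
  refine Function.Surjective.countable (f := fun τ : g.N => g.v τ.1) fun x => ?_
  obtain ⟨τ, hτ, rfl⟩ := Gen.exists_v x
  exact ⟨⟨τ, hτ⟩, rfl⟩

theorem lower_of_dir {P : Type u} [Preorder P] [OrderTop P]
    (cl : ∀ s : ℕ → P, Antitone s → ∃ q, ∀ n, q ≤ s n) (g : Gen P) (r : ℕ → P)
    (hr : ∀ n, r n ∈ g.G) : ∃ q, ∀ n, q ≤ r n := by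
  have h : ∀ n (p : g.G), ∃ q : g.G, q.1 ≤ p.1 ∧ q.1 ≤ r n := fun n p =>
    let ⟨q, hq, h⟩ := g.dir p.2 (hr n)
    ⟨⟨q, hq⟩, h⟩
  choose nx h₁ h₂ using h
  let s : ℕ → g.G := fun n => Nat.rec ⟨⊤, g.top⟩ nx n
  obtain ⟨q, hq⟩ := cl (fun n => (s n).1) (antitone_nat_of_succ_le fun n => h₁ _ _)
  exact ⟨q, fun n => (hq (n + 1)).trans (h₂ _ _)⟩

end Pool.Agent.MP_4faeaf_lc
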