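import Pool.Agent.MP_4faeaf_lc.Defs
import Pool.Agent.MP_4faeaf_lc.Rank
import Pool.Agent.MP_4faeaf_lc.Poset

namespace Pool.Agent.MP_4faeaf_lc

open Pool.Agent.MP_c6cf52_lc Pool.Agent.MP_c6cf52_lc.Name Pool.Agent.MP_c6cf52_lc.Gen Set Cardinal

universe u

variable {X : Type u} [LinearOrder X] [Ms X]

theorem wfX : WellFounded (fun a b : X => a < b) := wellFounded_lt

omit [Ms X] in
theorem triX (a b : X) : a < b ∨ a = b ∨ b < a := lt_trichotomy a b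

noncomputable def o (x : X) : Name (Cond X) := ordN wfX x

noncomputable def sN (s : Set X) : Name (Cond X) := setN wfX s

variable (X) in
noncomputable def nN (k : ℕ) : Name (Cond X) := ordN natWf ⟨k⟩

variable (X) in
noncomputable def omN : Name (Cond X) := setN natWf univ

variable {g : Gen (Cond X)}

theorem o_eq (x : X) : o x = sN (Iio x) := ordN_eq wfX x

theorem E_sN {s : Set X} (h : sN s ∈ g.N) {x : g.M} :
    g.E x (g.v (sN s)) ↔ ∃ y ∈ s, o y ∈ g.N ∧ g.v (o y) = x := E_setN wfX h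

theorem E_o {a : X} (h : o a ∈ g.N) {x : g.M} :
    g.E x (g.v (o a)) ↔ ∃ y, y < a ∧ o y ∈ g.N ∧ g.v (o y) = x := E_ordN wfX h

theorem o_lt {a b : X} (ha : o a ∈ g.N) (hb : o b ∈ g.N) :
    g.E (g.v (o a)) (g.v (o b)) ↔ a < b := ord_lt_iff wfX triX ha hb

theorem o_inj {a b : X} (ha : o a ∈ g.N) (hb : o b ∈ g.N) (h : g.v (o a) = g.v (o b)) : a = b :=
  ord_inj wfX triX ha hb h

theorem o_mem_sN {s : Set X} {a : X} (ha : o a ∈ g.N) (hs : sN s ∈ g.N) :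
    g.E (g.v (o a)) (g.v (sN s)) ↔ a ∈ s := ord_mem_setN_iff wfX triX ha hs

theorem o_mem {a b : X} (hb : o b ∈ g.N) (h : b < w1 X) (hab : a < b) : o a ∈ g.N :=
  ordN_mem wfX hb (ct_of_lt h) hab

theorem isOrd_o {a : X} (h : o a ∈ g.N) : IsOrd g.E (g.v (o a)) := by
  rw [o_eq] at h ⊢
  exact isOrd_setN wfX triX h fun x y h₁ h₂ => lt_trans h₁ h₂

theorem isOrd_k (h : sN univ ∈ g.N) : IsOrd g.E (g.v (sN univ)) :=
  isOrd_setN wfX triX h fun _ _ _ _ => trivial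

theorem nN_mem (k : ℕ) : nN X k ∈ g.N := nat_mem _

theorem omN_mem : omN X ∈ g.N := g.omega_mem

theorem nN_inj {j k : ℕ} (h : g.v (nN X j) = g.v (nN X k)) : j = k :=
  congrArg ULift.down (ord_inj natWf natTri (nN_mem j) (nN_mem k) h)

theorem nN_lt {j k : ℕ} : g.E (g.v (nN X j)) (g.v (nN X k)) ↔ j < k :=
  ord_lt_iff natWf natTri (nN_mem j) (nN_mem k)

theorem E_nN {k : ℕ} {x : g.M} : g.E x (g.v (nN X k)) ↔ ∃ j < k, g.v (nN X j) = x := by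
  unfold nN
  rw [E_ordN natWf (nat_mem _)]
  exact ⟨fun ⟨y, h₁, _, h₂⟩ => ⟨y.down, h₁, h₂⟩, fun ⟨j, h₁, h₂⟩ => ⟨⟨j⟩, h₁, nat_mem _, h₂⟩⟩

theorem E_om {x : g.M} : g.E x (g.v (omN X)) ↔ ∃ j, g.v (nN X j) = x := by
  unfold omN
  rw [E_setN natWf g.omega_mem]
  exact ⟨fun ⟨y, _, _, h₂⟩ => ⟨y.down, h₂⟩, fun ⟨j, h₂⟩ => ⟨⟨j⟩, trivial, nat_mem _, h₂⟩⟩

theorem nN_om (k : ℕ) : g.E (g.v (nN X k)) (g.v (omN X)) := E_om.2 ⟨k, rfl⟩

theorem isOmega_om : IsOmega g.E (g.v (omN X)) := by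
  refine ⟨isOrd_setN natWf natTri g.omega_mem fun _ _ _ _ => trivial, ⟨_, nN_om 0⟩,
    fun x hx => ?_, fun x hx ⟨y, hy⟩ => ?_⟩
  · obtain ⟨n, rfl⟩ := E_om.1 hx
    exact ⟨_, nN_om (n + 1), nN_lt.2 (Nat.lt_succ_self n)⟩
  · obtain ⟨n, rfl⟩ := E_om.1 hx
    obtain ⟨m, hm, -⟩ := E_nN.1 hy
    refine ⟨g.v (nN X (n - 1)), nN_lt.2 (by omega), fun z hz => ?_⟩
    obtain ⟨k, hk, rfl⟩ := E_nN.1 hz
    rw [nN_lt]
    omega

theorem exists_om : ∃ (i : ℕ → X) (w : X), (∀ n y, y < i n ↔ ∃ m, i m = y ∧ m < n) ∧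
    (∀ y, y < w ↔ ∃ m, i m = y) ∧ w < w1 X := by
  rcases InitialSeg.total (fun a b : ℕ => a < b) (fun a b : X => a < b) with f | f
  · obtain ⟨x, hx⟩ : ∃ x, x ∉ range f := by
      by_contra h
      push Not at h
      exact w1_unc (X := X) ((countable_range f).mono fun x _ => h x)
    obtain ⟨w, hw, hmin⟩ := wellFounded_lt.has_min {x | x ∉ range f} ⟨x, hx⟩
    have e : ∀ y, y < w ↔ ∃ m, f m = y := by
      refine fun y => ⟨fun h => by_contra fun h' => hmin y h' h, ?_⟩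
      rintro ⟨m, rfl⟩
      rcases lt_trichotomy (f m) w with h | h | h
      exacts [h, absurd ⟨m, h⟩ hw, absurd (f.mem_range_of_rel h) hw]
    refine ⟨f, w, fun n y => f.exists_eq_iff_rel, e, not_le.1 fun h => w1_unc (X := X) ?_⟩
    exact (countable_range f).mono fun y hy => (e y).1 (lt_of_lt_of_le hy h)
  · have : Countable X := f.injective.countable
    exact absurd (to_countable _) (w1_unc (X := X))

theorem om_mem_w1 (hk : o (w1 X) ∈ g.N) : g.E (g.v (omN X)) (g.v (o (w1 X))) := by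
  obtain ⟨i, w, h₁, h₂, h₃⟩ := exists_om (X := X)
  refine dens (UDef.mem 0 1) (l2 omN_mem hk) fun p _ =>
    ⟨p, le_rfl, {o w}, countable_singleton _, fun g' _ hC hl => ?_⟩
  have hw : o w ∈ g'.N := hC rfl
  have hm : ∀ n, o (i n) ∈ g'.N := fun n => o_mem hw h₃ ((h₂ _).2 ⟨n, rfl⟩)
  have e : ∀ n, g'.v (nN X n) = g'.v (o (i n)) := by
    intro n
    induction n using Nat.strong_induction_on with
    | h n ih =>
      refine ext fun x => ?_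
      rw [E_nN, E_o (hm n)]
      constructor
      · rintro ⟨j, hj, rfl⟩
        exact ⟨i j, (h₁ _ _).2 ⟨j, rfl, hj⟩, hm j, (ih j hj).symm⟩
      · rintro ⟨y, hy, -, rfl⟩
        obtain ⟨j, rfl, hj⟩ := (h₁ _ _).1 hy
        exact ⟨j, hj, ih j hj⟩
  have e' : g'.v (omN X) = g'.v (o w) := by
    refine ext fun x => ?_
    rw [E_om, E_o hw]
    constructor
    · rintro ⟨j, rfl⟩
      exact ⟨i j, (h₂ _).2 ⟨j, rfl⟩, hm j, (e j).symm⟩
    · rintro ⟨y, hy, -, rfl⟩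
      obtain ⟨j, rfl⟩ := (h₂ _).1 hy
      exact ⟨j, e j⟩
  change g'.E (g'.v (omN X)) (g'.v (o (w1 X)))
  rw [e']
  exact (o_lt hw (hl _ (by simp))).2 h₃

theorem no_card_om (hk : o (w1 X) ∈ g.N) (m : g.M) (hm : IsCard g.E m)
    (hom : g.E (g.v (omN X)) m) : ¬ g.E m (g.v (o (w1 X))) := by
  intro h
  obtain ⟨y, hy₀, hy, rfl⟩ := (E_o hk).1 h
  refine hm.2 _ hom ?_
  have := (ct_of_lt hy₀).to_subtype
  obtain ⟨e, he⟩ := exists_injective_nat (Iio y)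
  let τ : Name (Cond X) := relN (fun z : Iio y => o z.1) (fun z => nN X (e z)) (fun _ => ⊤)
  refine dens (Ψ := fun _ E w => ∃ f, IsInj E f (w 0) (w 1)) (UDef.ex (UDef.isInj _ _ _))
    (l2 hy omN_mem) fun p _ => ⟨p, le_rfl, {τ}, countable_singleton _, fun g' _ hC hl => ?_⟩
  have hτ : τ ∈ g'.N := hC rfl
  have hy' : o y ∈ g'.N := hl _ (by simp)
  refine ⟨g'.v τ, ⟨fun p hp => ?_, fun a ha => ?_⟩, fun a a' b h₁ h₂ => ?_⟩
  · obtain ⟨z, -, h₁, h₂, rfl⟩ := (E_relN hτ).1 hp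
    exact ⟨_, _, (o_lt h₁ hy').2 z.2, nN_om _, isPair_pr _ _⟩
  · obtain ⟨z, hz, hzN, rfl⟩ := (E_o hy').1 ha
    refine ⟨_, (app_relN hτ).2 ⟨⟨z, hz⟩, g'.top, hzN, nN_mem _, rfl, rfl⟩, fun b hb => ?_⟩
    obtain ⟨z', -, h₁, -, e₁, rfl⟩ := (app_relN hτ).1 hb
    obtain rfl : z' = ⟨z, hz⟩ := Subtype.ext (o_inj h₁ hzN e₁.symm)
    rfl
  · obtain ⟨z, -, -, -, rfl, rfl⟩ := (app_relN hτ).1 h₁
    obtain ⟨z', -, -, -, rfl, e₂⟩ := (app_relN hτ).1 h₂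
    rw [he (nN_inj e₂)]

theorem isCard_w1 (hk : o (w1 X) ∈ g.N) : IsCard g.E (g.v (o (w1 X))) := by
  refine ⟨isOrd_o hk, fun a ha ⟨f, hf⟩ => ?_⟩
  obtain ⟨y, hy, hyN, rfl⟩ := (E_o hk).1 ha
  obtain ⟨σ, hσ, rfl⟩ := exists_v f
  refine dens (Ψ := fun _ E w => ¬ IsInj E (w 0) (w 1) (w 2)) (UDef.isInj _ _ _).not
    (l3 hσ hk hyN) (fun p _ => ?_) hf
  have := (ct_of_lt hy).to_subtype
  obtain ⟨q, hq, h, H⟩ := decide_app Cond.closed (J := Iio y) (K := W X) σ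
    (fun _ k => o k.1) (fun j _ => o j.1) p
  obtain ⟨x, hx⟩ := W.exists_gt (countable_range h)
  refine ⟨q, hq, insert (o x.1) (range fun j => o (h j).1), (countable_range _).insert _,
    fun g' hq' hC hl (hf : IsInj g'.E (g'.v σ) (g'.v (o (w1 X))) (g'.v (o y))) => ?_⟩
  have hxN : o x.1 ∈ g'.N := hC (mem_insert _ _)
  obtain ⟨b, hb, hab⟩ := fun_ex hf.1 ((o_lt hxN (hl _ (by simp))).2 x.2)
  obtain ⟨z, hz, hzN, rfl⟩ := (E_o (hl _ (by simp))).1 hb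
  have hh : o (h ⟨z, hz⟩).1 ∈ g'.N := hC (Or.inr ⟨_, rfl⟩)
  have := H g' hq' (hl _ (by simp)) ⟨z, hz⟩ x hxN hzN hab hh hzN
  exact (hx _ ⟨_, rfl⟩).ne (Subtype.ext (o_inj hh hxN (hf.2 _ _ _ this hab)))

/-! ### The collapse -/

noncomputable def injN {J : Type u} (A : J → Name (Cond X)) (γ : X) (e : J → X) : Name (Cond X) :=
  relN (fun z : {z : J × W X × Cond X // (γ, e z.1, z.2.1) ∈ z.2.2.c} => A z.1.1)
    (fun z => o z.1.2.1.1) (fun z => z.1.2.2)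

theorem app_injN {J : Type u} {A : J → Name (Cond X)} {γ : X} {e : J → X} (h : injN A γ e ∈ g.N)
    {s t : g.M} : App g.E (g.v (injN A γ e)) s t ↔ ∃ j ξ p, p ∈ g.G ∧ (γ, e j, ξ) ∈ p.c ∧
      A j ∈ g.N ∧ o ξ.1 ∈ g.N ∧ s = g.v (A j) ∧ t = g.v (o ξ.1) := by
  unfold injN at h ⊢
  rw [app_relN h]
  exact ⟨fun ⟨⟨⟨j, x, p⟩, h₀⟩, h₁, h₂⟩ => ⟨j, x, p, h₁, h₀, h₂⟩,
    fun ⟨j, x, p, h₁, h₀, h₂⟩ => ⟨⟨⟨j, x, p⟩, h₀⟩, h₁, h₂⟩⟩

theorem c_compat {p q : Cond X} (hp : p ∈ g.G) (hq : q ∈ g.G) {γ x y : X} {ξ ζ : W X}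
    (ha : (γ, x, ξ) ∈ p.c) (hb : (γ, y, ζ) ∈ q.c) : x = y ↔ ξ = ζ := by
  obtain ⟨r, -, h₁, h₂⟩ := g.dir hp hq
  exact r.c_fun _ (h₁.c ha) _ (h₂.c hb) rfl

theorem isInj_injN {J : Type u} {A : J → Name (Cond X)} {γ : X} {e : J → X}
    (he : Function.Injective e) (hγ : ∀ j, e j < γ) (h : injN A γ e ∈ g.N)
    (hA : fam A ∈ g.N) (hk : o (w1 X) ∈ g.N)
    (inj : ∀ i j, A i ∈ g.N → A j ∈ g.N → g.v (A i) = g.v (A j) → i = j) :
    IsInj g.E (g.v (injN A γ e)) (g.v (fam A)) (g.v (o (w1 X))) := by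
  refine ⟨⟨fun p hp => ?_, fun a ha => ?_⟩, fun a a' b h₁ h₂ => ?_⟩
  · obtain ⟨⟨⟨j, x, q⟩, h₀⟩, -, h₂, h₃, rfl⟩ := (E_relN h).1 hp
    exact ⟨_, _, (E_fam hA).2 ⟨j, h₂, rfl⟩, (o_lt h₃ hk).2 x.2, isPair_pr _ _⟩
  · obtain ⟨j, hj, rfl⟩ := (E_fam hA).1 ha
    have : ∃ b, App g.E (g.v (injN A γ e)) (g.v (A j)) b := by
      refine dens (Ψ := fun _ E w => ∃ b, App E (w 0) (w 1) b) (UDef.ex (UDef.app _ _ _))
        (l2 h hj) fun p _ => ?_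
      obtain ⟨q, hq, x, hx⟩ := p.add_dom (hγ j)
      refine ⟨q, hq, {o x.1}, countable_singleton _, fun g' hq' hC hl => ?_⟩
      exact ⟨_, (app_injN (hl _ (by simp))).2
        ⟨j, x, q, hq', hx, hl _ (by simp), hC rfl, rfl, rfl⟩⟩
    obtain ⟨b, hb⟩ := this
    refine ⟨b, hb, fun b' hb' => ?_⟩
    obtain ⟨i, x, p, hp, hx, hi, -, e₁, rfl⟩ := (app_injN h).1 hb
    obtain ⟨i', x', p', hp', hx', hi', -, e₂, rfl⟩ := (app_injN h).1 hb'
    obtain rfl := inj _ _ hi hi' (e₁.symm.trans e₂)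
    rw [show x = x' from (c_compat hp hp' hx hx').1 rfl]
  · obtain ⟨i, x, p, hp, hx, -, ho, rfl, rfl⟩ := (app_injN h).1 h₁
    obtain ⟨i', x', p', hp', hx', -, ho', rfl, e₂⟩ := (app_injN h).1 h₂
    rw [he ((c_compat hp hp' hx hx').2 (Subtype.ext (o_inj ho ho' e₂)))]

theorem no_card_between (hk : o (w1 X) ∈ g.N) (hl : sN univ ∈ g.N) (m : g.M) (hm : IsCard g.E m)
    (hkm : g.E (g.v (o (w1 X))) m) : ¬ g.E m (g.v (sN univ)) := by
  intro h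
  obtain ⟨x, -, hx, rfl⟩ := (E_sN hl).1 h
  refine hm.2 _ hkm ?_
  refine dens (Ψ := fun _ E w => ∃ f, IsInj E f (w 0) (w 1)) (UDef.ex (UDef.isInj _ _ _))
    (l2 hx hk) fun p _ => ⟨p, le_rfl, {injN (fun y : Iio x => o y.1) x Subtype.val},
      countable_singleton _, fun g' _ hC hl => ?_⟩
  have hx' : o x ∈ g'.N := hl _ (by simp)
  have e : o x = fam (fun y : Iio x => o y.1) := o_eq x
  have := isInj_injN (g := g') Subtype.val_injective (fun y => y.2) (hC rfl) (e ▸ hx')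
    (hl _ (by simp)) fun i j hi hj h => Subtype.ext (o_inj hi hj h)
  rw [← e] at this
  exact ⟨_, this⟩

theorem udef_sub (i j : ℕ) : UDef.{u} (fun _ E w => Sub E (w i) (w j)) :=
  UDef.all ((UDef.mem _ _).imp (UDef.mem _ _))

variable (X) in
noncomputable def realsN : Name (Cond X) := fam fun A : Set (ULift.{u} ℕ) => setN natWf A

theorem E_reals (h : realsN X ∈ g.N) (x : g.M) :
    g.E x (g.v (realsN X)) ↔ Sub g.E x (g.v (omN X)) := by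
  constructor
  · intro hx y hy
    obtain ⟨A, hA, rfl⟩ := (E_fam h).1 hx
    obtain ⟨n, -, -, rfl⟩ := (E_setN natWf hA).1 hy
    exact nN_om n.down
  · intro hx
    obtain ⟨σ, hσ, rfl⟩ := exists_v x
    refine dens (Ψ := fun _ E w => Sub E (w 0) (w 1) → E (w 0) (w 2))
      ((udef_sub _ _).imp (UDef.mem _ _)) (l3 hσ omN_mem h) (fun p _ => ?_) hx
    obtain ⟨q, hq, H⟩ := baire Cond.closed
      (fun (n : ℕ) q => FMem (nN X n) σ q ∨ ∀ r ≤ q, ¬ FMem (nN X n) σ r)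
      (fun n p => by
        by_cases h : FMem (nN X n) σ p
        · exact ⟨p, le_rfl, Or.inl h⟩
        · obtain ⟨r, hr, h⟩ := exists_not_fmem h
          exact ⟨r, hr, Or.inr h⟩)
      (fun n p q hq h => h.imp (·.mono hq) fun h r hr => h r (hr.trans hq)) p
    let A : Set (ULift.{u} ℕ) := {n | FMem (nN X n.down) σ q}
    refine ⟨q, hq, {setN natWf A}, countable_singleton _,
      fun g' hq' hC hl (hx : Sub g'.E (g'.v σ) (g'.v (omN X))) => ?_⟩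
    have hA : setN natWf A ∈ g'.N := hC rfl
    have hσ' : σ ∈ g'.N := hl _ (by simp)
    refine (E_fam (hl (realsN X) (by simp))).2 ⟨A, hA, ext fun y => ⟨fun hy => ?_, fun hy => ?_⟩⟩
    · obtain ⟨n, hn, -, rfl⟩ := (E_setN natWf hA).1 hy
      exact (v_mem_iff (nN_mem n.down) hσ').2 ⟨q, hq', hn⟩
    · obtain ⟨n, rfl⟩ := E_om.1 (hx y hy)
      obtain ⟨r, hr, h⟩ := (v_mem_iff (nN_mem n) hσ').1 hy
      obtain ⟨s, -, h₁, h₂⟩ := g'.dir hr hq'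
      exact (E_setN natWf hA).2 ⟨⟨n⟩, (H n).resolve_right fun h' => h' s h₂ (h.mono h₁),
        nN_mem n, rfl⟩

theorem udef_ch (i j : ℕ) : UDef.{u} (fun _ E w => CH E (w i) (w j)) := by
  unfold CH
  repeat' first
    | exact UDef.mem _ _ | exact udef_sub _ _ | exact UDef.isInj _ _ _ | apply UDef.and
    | apply UDef.iff | apply UDef.all | apply UDef.ex

theorem ch (hk : o (w1 X) ∈ g.N) : CH g.E (g.v (omN X)) (g.v (o (w1 X))) := by
  obtain ⟨γ, j, hj⟩ := exists_reals_emb (X := X)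
  refine dens (udef_ch 0 1) (l2 omN_mem hk) fun p _ => ⟨p, le_rfl,
    {realsN X, injN (fun A : Set (ULift.{u} ℕ) => setN natWf A) γ j}, (toFinite _).countable,
    fun g' _ hC hl => ⟨_, _, E_reals (hC (by simp)), isInj_injN j.injective hj (hC (by simp))
      (hC (Or.inl rfl)) (hl _ (by simp)) fun A B hA hB e => ?_⟩⟩
  ext n
  rw [← ord_mem_setN_iff natWf natTri (nat_mem n) hA, e,
    ord_mem_setN_iff natWf natTri (nat_mem n) hB]

end Pool.Agent.MP_4faeaf_lc
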