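import Pool.Agent.MP_c6cf52_lc.Defs

namespace Pool.Agent.MP_4faeaf_lc

open Pool.Agent.MP_c6cf52_lc

universe u

variable {M : Type u} (E : M → M → Prop)

/-- Inclusion. -/
def Sub (a b : M) : Prop := ∀ x, E x a → E x b

/-- `w` is the first infinite ordinal: a nonzero limit ordinal all of whose nonzero members have a
largest member. -/
def IsOmega (w : M) : Prop :=
  IsOrd E w ∧ (∃ x, E x w) ∧ (∀ x, E x w → ∃ y, E y w ∧ E x y) ∧
    ∀ x, E x w → (∃ y, E y x) → ∃ y, E y x ∧ ∀ z, E z x → ¬ E y z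

/-- `l` is the least cardinal above `k`. -/
def IsSuccCard (k l : M) : Prop := IsCard E l ∧ E k l ∧ ∀ m, IsCard E m → E k m → ¬ E m l

/-- The continuum hypothesis: the power set of `w` injects into `w1`. -/
def CH (w w1 : M) : Prop := ∃ P f, (∀ x, E x P ↔ Sub E x w) ∧ IsInj E f P w1

/-- `I` is a proper `k`-complete ideal on `k` containing all singletons. -/
def IsIdeal (I k : M) : Prop :=
  (∀ A, E A I → Sub E A k) ∧ ¬ E k I ∧ (∀ A B, E A I → Sub E B A → E B I) ∧
    (∀ a A, E a k → (∀ x, E x A ↔ x = a) → E A I) ∧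
    ∀ S a f A, Sub E S I → E a k → IsInj E f S a → (∀ x, E x A ↔ ∃ B, E B S ∧ E x B) → E A I

/-- `A` is an `I`-positive subset of `k`. -/
def Pos (I k A : M) : Prop := Sub E A k ∧ ¬ E A I

/-- `A` is included in `B` modulo `I`. -/
def LeI (I A B : M) : Prop := ∃ C, E C I ∧ ∀ x, E x A → E x B ∨ E x C

/-- `G` is a filter on `P(k)/I` (given by the set of all representatives) that is generic over the
model. -/
def IsGeneric (I k : M) (G : Set M) : Prop :=
  (∀ A ∈ G, Pos E I k A) ∧ (∀ A ∈ G, ∀ B, Sub E B k → LeI E I A B → B ∈ G) ∧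
    (∀ A ∈ G, ∀ B ∈ G, ∃ C ∈ G, LeI E I C A ∧ LeI E I C B) ∧
    ∀ D, (∀ A, Pos E I k A → ∃ B, E B D ∧ Pos E I k B ∧ LeI E I B A) → ∃ A ∈ G, E A D

/-- Every generic ultrapower of the model is well-founded. -/
def Precipitous (I k : M) : Prop :=
  ∀ G, IsGeneric E I k G → WellFounded fun f g : {f // ∃ Y, IsFun E f k Y} =>
    ∃ A ∈ G, ∀ a x y, E a A → App E f.1 a x → App E g.1 a y → E x y

/-- `t` is the restriction of the sequence `c` to the indices at most `n`. -/
def IsInit (c n t : M) : Prop := ∀ p, E p t ↔ E p c ∧ ∃ m y, IsPair E p m y ∧ (E m n ∨ m = n)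

/-- `a` belongs to the current set after the rounds `m ∈ n`, when Cut splits the current set `X` in
round `m` into `c m` and `X ∖ c m`, and Choose keeps `c m` exactly if `(c 0, …, c m) ∈ s`. -/
def Surv (k s c n a : M) : Prop :=
  E a k ∧ ∀ m A t, E m n → App E c m A → IsInit E c m t → (E t s ↔ E a A)

/-- Choose has a winning strategy in the cut and choose game on `k` of length `w`. -/
def ChooseWins (w k : M) : Prop :=
  ∃ s, ∀ c Y, IsFun E c w Y → (∀ n A a, App E c n A → E a A → Surv E k s c n a) →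
    ∃ a b, a ≠ b ∧ Surv E k s c w a ∧ Surv E k s c w b

end Pool.Agent.MP_4faeaf_lc
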