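import Pool.Agent.MP_4faeaf_lc.Poset

namespace Pool.Agent.MP_4faeaf_lc

open Set

universe u

variable {X : Type u} [LinearOrder X] [Ms X]

/-- A name for a subset of `X`. -/
structure Cut (X : Type u) [LinearOrder X] [Ms X] where
  R : X → Cond X → Prop
  mono : ∀ α p q, q ≤ p → R α p → R α q

/-- The condition forces the point to lie on the given side of the cut. -/
def side : Cut X × Bool → X → Cond X → Prop
  | (C, true), α, r => C.R α r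
  | (C, false), α, r => ∀ r' ≤ r, ¬ C.R α r'

theorem side_mono {z : Cut X × Bool} {α : X} {p q : Cond X} (h : side z α p) (hq : q ≤ p) :
    side z α q := by
  obtain ⟨C, _ | _⟩ := z
  · exact fun r hr => h r (hr.trans hq)
  · exact C.mono _ _ _ hq h

/-- The combinatorial content of a name for a winning strategy of Choose. -/
structure Strat (X : Type u) [LinearOrder X] [Ms X] where
  p₀ : Cond X
  Ans : (ℕ → Cut X × Bool) → ℕ → Cond X → Prop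
  mono : ∀ f k p q, q ≤ p → Ans f k p → Ans f k q
  congr : ∀ f f' k p, (∀ i ≤ k, f i = f' i) → Ans f k p → Ans f' k p
  dense : ∀ f k p C, ∃ q ≤ p, ∃ b, Ans (Function.update f k (C, b)) k q
  win : ∀ f q, q ≤ p₀ → (∀ k, Ans f k q) →
    ∃ r ≤ q, ∃ α β, α ≠ β ∧ ∀ k, side (f k) α r ∧ side (f k) β r

namespace Strat

variable (S : Strat X)

/-- Positions. -/
structure St where
  p : Cond X
  n : ℕ
  f : ℕ → Cut X × Bool
  le : p ≤ S.p₀
  good : ∀ k < n, S.Ans f k p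

variable {S}

instance : Preorder S.St where
  le t s := t.p ≤ s.p ∧ s.n ≤ t.n ∧ ∀ k < s.n, t.f k = s.f k
  le_refl _ := ⟨le_rfl, le_rfl, fun _ _ => rfl⟩
  le_trans _ _ _ h₁ h₂ := ⟨h₁.1.trans h₂.1, h₂.2.1.trans h₁.2.1,
    fun k hk => (h₁.2.2 k (hk.trans_le h₂.2.1)).trans (h₂.2.2 k hk)⟩

def St.Has (s : S.St) (z : Cut X × Bool) : Prop := ∃ k < s.n, s.f k = z

theorem St.Has.mono {s t : S.St} {z : Cut X × Bool} (h : s.Has z) (ht : t ≤ s) : t.Has z := by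
  obtain ⟨k, hk, e⟩ := h
  exact ⟨k, hk.trans_le ht.2.1, (ht.2.2 k hk).trans e⟩

theorem ask' (s : S.St) (C : Cut X) :
    ∃ t ≤ s, s.n < t.n ∧ (t.Has (C, true) ∨ t.Has (C, false)) := by
  obtain ⟨q, hq, b, h⟩ := S.dense s.f s.n s.p C
  refine ⟨⟨q, s.n + 1, Function.update s.f s.n (C, b), hq.trans s.le, fun k hk => ?_⟩,
    ⟨hq, Nat.le_succ _, fun k hk => Function.update_of_ne hk.ne _ _⟩, Nat.lt_succ_self _, ?_⟩
  · rcases Nat.lt_succ_iff_lt_or_eq.1 hk with hk | rfl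
    · exact S.congr _ _ _ _ (fun i hi => (Function.update_of_ne (hi.trans_lt hk).ne _ _).symm)
        (S.mono _ _ _ _ hq (s.good k hk))
    · exact h
  · cases b
    · exact Or.inr ⟨s.n, Nat.lt_succ_self _, Function.update_self _ _ _⟩
    · exact Or.inl ⟨s.n, Nat.lt_succ_self _, Function.update_self _ _ _⟩

theorem ask (s : S.St) (C : Cut X) : ∃ t ≤ s, t.Has (C, true) ∨ t.Has (C, false) :=
  let ⟨t, h, _, h'⟩ := ask' s C
  ⟨t, h, h'⟩

theorem lower (s : S.St) {q : Cond X} (hq : q ≤ s.p) : ∃ t ≤ s, t.p = q :=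
  ⟨⟨q, s.n, s.f, hq.trans s.le, fun k hk => S.mono _ _ _ _ hq (s.good k hk)⟩,
    ⟨hq, le_rfl, fun _ _ => rfl⟩, rfl⟩

theorem lim' (s : ℕ → S.St) (hs : Antitone s) (q : Cond X) (hq : ∀ n, q ≤ (s n).p)
    (hu : ∀ k, ∃ m, k < (s m).n) :
    ∃ r ≤ q, ∃ α β, α ≠ β ∧ ∀ n z, (s n).Has z → side z α r ∧ side z β r := by
  choose m hm using hu
  have key : ∀ n, ∀ k < (s n).n, (s n).f k = (s (m k)).f k := fun n k hk =>
    ((hs (le_max_left n (m k))).2.2 k hk).symm.trans ((hs (le_max_right n (m k))).2.2 k (hm k))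
  obtain ⟨r, hr, α, β, hne, h⟩ := S.win (fun k => (s (m k)).f k) q ((hq 0).trans (s 0).le)
    fun k => S.congr _ _ _ _ (fun i hi => key _ i (hi.trans_lt (hm k)))
      (S.mono _ _ _ _ (hq _) ((s (m k)).good k (hm k)))
  refine ⟨r, hr, α, β, hne, ?_⟩
  rintro n _ ⟨k, hk, rfl⟩
  rw [key n k hk]
  exact h k

theorem lim (s : ℕ → S.St) (hs : Antitone s) (q : Cond X) (hq : ∀ n, q ≤ (s n).p) :
    ∃ r ≤ q, ∃ α β, α ≠ β ∧ ∀ n z, (s n).Has z → side z α r ∧ side z β r := by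
  by_cases hu : ∀ k, ∃ m, k < (s m).n
  · exact lim' s hs q hq hu
  push Not at hu
  obtain ⟨k, hk⟩ := hu
  have hb : BddAbove (range fun m => (s m).n) := ⟨k, by rintro _ ⟨m, rfl⟩; exact hk m⟩
  obtain ⟨N, hN⟩ := Nat.sSup_mem (range_nonempty fun m => (s m).n) hb
  have hN' : ∀ m, (s m).n ≤ (s N).n := fun m => (le_csSup hb ⟨m, rfl⟩).trans hN.ge
  obtain ⟨t₀, h₀, e₀⟩ := lower (s N) (hq N)
  choose nx h₁ h₂ _ using fun t : S.St => ask' t ⟨fun _ _ => True, fun _ _ _ _ h => h⟩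
  let t : ℕ → S.St := fun n => Nat.rec t₀ (fun _ => nx) n
  have ht : Antitone t := antitone_nat_of_succ_le fun n => h₁ _
  obtain ⟨q', hq'⟩ := Cond.closed (fun n => (t n).p) fun _ _ h => (ht h).1
  have hn : ∀ n, n ≤ (t n).n := fun n => by
    induction n with
    | zero => exact Nat.zero_le _
    | succ n ih => exact Nat.succ_le_of_lt (ih.trans_lt (h₂ (t n)))
  obtain ⟨r, hr, α, β, hne, h⟩ := lim' t ht q' hq' fun k => ⟨k + 1, hn (k + 1)⟩
  refine ⟨r, hr.trans (e₀ ▸ hq' 0), α, β, hne, fun n z hz => h 0 z (St.Has.mono ?_ h₀)⟩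
  obtain ⟨i, hi, e⟩ := hz
  exact ⟨i, hi.trans_le (hN' n), ((hs (le_max_right n N)).2.2 i (hi.trans_le (hN' n))).symm.trans
    (((hs (le_max_left n N)).2.2 i hi).trans e)⟩

theorem lim₁ (s : ℕ → S.St) (hs : Antitone s) : ∃ α r, ∀ n z, (s n).Has z → side z α r := by
  obtain ⟨q, hq⟩ := Cond.closed (fun n => (s n).p) fun _ _ h => (hs h).1
  obtain ⟨r, -, α, β, -, h⟩ := lim s hs q hq
  exact ⟨α, r, fun n z hz => (h n z hz).1⟩

theorem run (s₀ : S.St) (D : ℕ → S.St → Prop) (h : ∀ n, ∀ s ≤ s₀, ∃ t ≤ s, D n t) :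
    ∃ α r, ∀ n, ∃ s, D n s ∧ ∀ z, s.Has z → side z α r := by
  choose nx h₁ h₂ using h
  let t : ℕ → {s // s ≤ s₀} := fun n => Nat.rec ⟨s₀, le_rfl⟩
    (fun n s => ⟨nx n s.1 s.2, (h₁ _ _ _).trans s.2⟩) n
  obtain ⟨α, r, h⟩ := lim₁ (fun n => (t n).1) (antitone_nat_of_succ_le fun n => h₁ _ _ _)
  exact ⟨α, r, fun n => ⟨_, h₂ n (t n).1 (t n).2, h (n + 1)⟩⟩

/-- Countable partitions can be decided. -/
theorem dec_nat (G : ℕ → Cut X) (cov : ∀ α r, ∃ r' ≤ r, ∃ n, (G n).R α r') (s : S.St) :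
    ∃ t ≤ s, ∃ n, t.Has (G n, true) := by
  by_contra h
  push Not at h
  obtain ⟨α, r, H⟩ := run s (fun n t => t.Has (G n, false)) fun n t ht => by
    obtain ⟨t', h₁, h₂ | h₂⟩ := ask t (G n)
    exacts [absurd h₂ (h t' (h₁.trans ht) n), ⟨t', h₁, h₂⟩]
  obtain ⟨r', hr, n, hn⟩ := cov α r
  obtain ⟨t, h₁, h₂⟩ := H n
  exact h₂ _ h₁ r' hr hn

/-- Partitions into `ω₁` pieces can be decided. -/
theorem dec_W' (F : W X → Cut X) (cov : ∀ α r, ∃ r' ≤ r, ∃ η, (F η).R α r')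
    (fn : ∀ α r η η', (F η).R α r → (F η').R α r → η = η') (s : S.St) :
    ∃ t ≤ s, ∃ η, t.Has (F η, true) := by
  classical
  obtain ⟨e, he₁, he₂⟩ := exists_coherent (W X) W.ct
  let G : W X → ℕ → Cut X := fun y n => ⟨fun α r => ∃ η, (F η).R α r ∧ e η y = n,
    fun α p q hq ⟨η, h₁, h₂⟩ => ⟨η, (F η).mono _ _ _ hq h₁, h₂⟩⟩
  have hG : ∀ y (s : S.St), ∃ t ≤ s, ∃ n, t.Has (G y n, true) := fun y => dec_nat (G y)
    fun α r => let ⟨r', hr, η, h⟩ := cov α r; ⟨r', hr, _, η, h, rfl⟩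
  by_contra h
  push Not at h
  by_cases hc : ∃ s₁ ≤ s, ∀ y n m, ∀ t ≤ s₁, ∀ t' ≤ s₁,
      t.Has (G y n, true) → t'.Has (G y m, true) → n = m
  · obtain ⟨s₁, hs₁, hc⟩ := hc
    choose t ht c hc' using fun y => hG y s₁
    obtain ⟨n, hn⟩ : ∃ n, {y | c y = n}.Infinite := by
      by_contra h'
      push Not at h'
      obtain ⟨b, hb⟩ := W.exists_gt (countable_iUnion fun n => (h' n).countable)
      exact lt_irrefl b (hb b (mem_iUnion.2 ⟨_, rfl⟩))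
    let y : ℕ → W X := fun i => (hn.natEmbedding _ i).1
    have hy : ∀ i, c (y i) = n := fun i => (hn.natEmbedding _ i).2
    obtain ⟨b, hb⟩ := W.exists_gt (countable_range y)
    obtain ⟨z, hz⟩ := (W.ct b).exists_eq_range ⟨_, hb _ ⟨0, rfl⟩⟩
    obtain ⟨α, r, H⟩ := run s₁ (fun i t => t.Has (G (y i) n, true) ∧ t.Has (F (z i), false))
      fun i t₁ h₁ => by
        obtain ⟨t₂, h₂, m, hm⟩ := hG (y i) t₁
        obtain rfl : m = n := (hc _ _ _ _ (h₂.trans h₁) _ (ht _) hm (hc' _)).trans (hy i)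
        obtain ⟨t₃, h₃, h₄ | h₄⟩ := ask t₂ (F (z i))
        · exact absurd h₄ (h _ (h₃.trans (h₂.trans (h₁.trans hs₁))) _)
        · exact ⟨t₃, h₃.trans h₂, hm.mono h₃, h₄⟩
    choose v hv hv' using H
    obtain ⟨η, hη, -⟩ := hv' 0 _ (hv 0).1
    have hbη : b ≤ η := not_lt.1 fun h' => by
      obtain ⟨i, rfl⟩ : η ∈ range z := hz ▸ h'
      exact hv' i _ (hv i).2 r le_rfl hη
    refine infinite_range_of_injective (f := y)
      (Subtype.val_injective.comp (hn.natEmbedding _).injective) ((he₁ η n).subset ?_)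
    rintro _ ⟨i, rfl⟩
    obtain ⟨η', h₁, h₂⟩ := hv' i _ (hv i).1
    exact ⟨(hb _ ⟨i, rfl⟩).trans_le hbη, (fn _ _ _ _ h₁ hη ▸ h₂).le⟩
  · push Not at hc
    have hc' : ∀ s₁ : {t // t ≤ s}, ∃ (y : W X) (v : Bool → ℕ) (ch : Bool → {t // t ≤ s}),
        v true ≠ v false ∧ ∀ b, (ch b).1 ≤ s₁.1 ∧ (ch b).1.Has (G y (v b), true) := by
      intro s₁
      obtain ⟨y, n, m, t, ht, t', ht', h₁, h₂, hne⟩ := hc s₁.1 s₁.2
      refine ⟨y, fun b => cond b n m, fun b => cond b ⟨t, ht.trans s₁.2⟩ ⟨t', ht'.trans s₁.2⟩,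
        hne, fun b => ?_⟩
      cases b
      exacts [⟨ht', h₂⟩, ⟨ht, h₁⟩]
    choose y v ch hv hch using hc'
    let nd : List Bool → {t // t ≤ s} := fun l => l.foldr (fun b t => ch t b) ⟨s, le_rfl⟩
    obtain ⟨δ, hδ⟩ := W.exists_gt (countable_range fun l => y (nd l))
    obtain ⟨c, hc⟩ := (countable_codes W.ct he₂ δ).exists_eq_range (range_nonempty _)
    let bb : ℕ → List Bool → Bool := fun n l => decide ((y (nd l), v (nd l) true) ∉ c n)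
    let l : ℕ → List Bool := fun n => Nat.rec [] (fun n l => bb n l :: l) n
    obtain ⟨α, r, H⟩ := lim₁ (fun n => (nd (l n)).1)
      (antitone_nat_of_succ_le fun n => (hch _ _).1)
    have H' : ∀ n, ∃ η, (F η).R α r ∧ e η (y (nd (l n))) = v (nd (l n)) (bb n (l n)) :=
      fun n => H (n + 1) _ (hch _ _).2
    obtain ⟨η, hη, -⟩ := H' 0
    obtain ⟨n, hn⟩ : _ ∈ range c := hc ▸ mem_range_self η
    obtain ⟨η', h₁, h₂⟩ := H' n
    obtain rfl := fn _ _ _ _ h₁ hη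
    have h₃ : y (nd (l n)) < δ := hδ _ ⟨_, rfl⟩
    by_cases h₄ : (y (nd (l n)), v (nd (l n)) true) ∈ c n
    · have : bb n (l n) = false := by simp [bb, h₄]
      rw [this] at h₂
      rw [hn] at h₄
      exact hv _ (h₄.2.symm.trans h₂)
    · have : bb n (l n) = true := by simp [bb, h₄]
      rw [this] at h₂
      exact h₄ (hn ▸ ⟨h₃, h₂⟩)

theorem dec_W (F : W X → Cut X) (cov : ∀ α r, ∃ r' ≤ r, ∃ η, (F η).R α r') (s : S.St) :
    ∃ t ≤ s, ∃ η, ∃ C : Cut X, t.Has (C, true) ∧ ∀ α r, C.R α r → (F η).R α r := by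
  obtain ⟨t, ht, η, h⟩ := dec_W' (fun η => ⟨fun α r => (F η).R α r ∧
      ∀ η' < η, ∀ r' ≤ r, ¬ (F η').R α r', fun α p q hq h =>
        ⟨(F η).mono _ _ _ hq h.1, fun η' h' r hr => h.2 η' h' r (hr.trans hq)⟩⟩) (by
      intro α r
      obtain ⟨r₀, h₀, η₀, h₁⟩ := cov α r
      obtain ⟨η, ⟨r', hr, h⟩, hmin⟩ := wellFounded_lt.has_min {η | ∃ r' ≤ r, (F η).R α r'}
        ⟨η₀, r₀, h₀, h₁⟩
      exact ⟨r', hr, η, h, fun η' h' r'' hr' h'' => hmin η' ⟨r'', hr'.trans hr, h''⟩ h'⟩) (by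
      intro α r η η' h h'
      rcases lt_trichotomy η η' with e | e | e
      exacts [absurd h.1 (h'.2 _ e r le_rfl), e, absurd h'.1 (h.2 _ e r le_rfl)]) s
  exact ⟨t, ht, η, _, h, fun _ _ h => h.1⟩

theorem avoid (s : S.St) (α₀ : X) : ∃ t ≤ s, ∃ η < t.p.δ,
    ∀ α r, (∀ z, t.Has z → side z α r) → r.Diff α₀ α η := by
  obtain ⟨t₁, h₁, h₂ | h₂⟩ := ask s ⟨fun α _ => α = α₀, fun _ _ _ _ h => h⟩
  · obtain ⟨r, -, α, β, hne, h⟩ := lim (fun _ => t₁) antitone_const t₁.p fun _ => le_rfl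
    exact absurd ((h 0 _ h₂).1.trans (h 0 _ h₂).2.symm) hne
  obtain ⟨t₂, h₃, η, C, h₄, h₅⟩ := dec_W (fun η => ⟨fun α r => α = α₀ ∨ r.Diff α₀ α η,
      fun α p q hq h => h.imp id fun h => h.mono hq⟩) (by
      intro α r
      by_cases e : α = α₀
      · exact ⟨r, le_rfl, w0 X, Or.inl e⟩
      · obtain ⟨q, hq, η, h⟩ := r.split (Ne.symm e)
        exact ⟨q, hq, η, Or.inr h⟩) t₁
  obtain ⟨q, hq, hη⟩ := t₂.p.raise η
  obtain ⟨t₃, h₆, rfl⟩ := lower t₂ hq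
  exact ⟨t₃, h₆.trans (h₃.trans h₁), η, hη, fun α r h =>
    (h₅ α r (h _ (h₄.mono h₆))).resolve_left (h _ (h₂.mono (h₆.trans h₃)) r le_rfl)⟩

/-- Bookkeeping. -/
def bk {A B : Type*} (a₀ : A) (nx : A → B → A) (en : A → ℕ → B) : ℕ → A
  | 0 => a₀
  | n + 1 => nx (bk a₀ nx en n) (en (bk a₀ nx en n.unpair.1) n.unpair.2)
decreasing_by
  · exact Nat.lt_succ_self _
  · exact Nat.lt_succ_of_le (Nat.unpair_left_le _)

theorem false (S : Strat X) : False := by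
  choose nx h₁ η h₂ h₃ using avoid (S := S)
  choose en hen using fun s : S.St => s.p.a_ct.exists_eq_range ⟨_, s.p.a_ne⟩
  let s : ℕ → S.St := bk ⟨S.p₀, 0, fun _ => (⟨fun _ _ => True, fun _ _ _ _ h => h⟩, true), le_rfl,
    fun _ h => absurd h (Nat.not_lt_zero _)⟩ nx en
  have hs : ∀ n, s (n + 1) = nx (s n) (en (s n.unpair.1) n.unpair.2) := fun n => by
    simp only [s]; rw [bk]
  have ha : Antitone s := antitone_nat_of_succ_le fun n => hs n ▸ h₁ _ _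
  obtain ⟨q, hq, hq'⟩ := Cond.closed' (fun n => (s n).p) fun _ _ h => (ha h).1
  obtain ⟨r, hr, α, β, -, h⟩ := lim s ha q hq
  obtain ⟨r', hr', hα⟩ := r.add_idx α
  obtain ⟨α₀, hα₀, e⟩ := (hr'.trans hr).k α hα
  obtain ⟨i, hi⟩ := hq' α₀ hα₀
  obtain ⟨j, rfl⟩ : α₀ ∈ range (en (s i)) := hen (s i) ▸ hi
  have e₁ := hs (Nat.pair i j)
  rw [Nat.unpair_pair] at e₁
  have h₄ := (h₃ _ _ α r fun z hz => (h _ z (e₁ ▸ hz)).1).mono hr'
  have h₅ := (h₂ (s (Nat.pair i j)) (en (s i) j)).trans_le (e₁ ▸ (hq (Nat.pair i j + 1)).δ)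
  exact h₄.2.2.2 (((hr'.trans hr).f _ hα₀ _ h₅).trans (e _ h₅).symm)

end Strat

end Pool.Agent.MP_4faeaf_lc
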