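import Pool.Agent.MP_4faeaf_lc.Card

namespace Pool.Agent.MP_4faeaf_lc

open Pool.Agent.MP_c6cf52_lc Pool.Agent.MP_c6cf52_lc.Name Pool.Agent.MP_c6cf52_lc.Gen Set Cardinal

universe u

variable {X : Type u} [LinearOrder X] [Ms X]

variable (X) in
/-- The name of the measure. -/
noncomputable def uN : Name (Cond X) := fam fun Y : {Y : Set X // Y ∈ UU X} => sN Y.1

variable {g : Gen (Cond X)}

theorem E_u (h : uN X ∈ g.N) {x : g.M} :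
    g.E x (g.v (uN X)) ↔ ∃ Y ∈ UU X, sN Y ∈ g.N ∧ g.v (sN Y) = x := by
  unfold uN at h ⊢
  rw [E_fam h]
  exact ⟨fun ⟨Y, h⟩ => ⟨Y.1, Y.2, h⟩, fun ⟨Y, h₁, h₂⟩ => ⟨⟨Y, h₁⟩, h₂⟩⟩

theorem u_ne (hu : uN X ∈ g.N) {Y : g.M} (h : g.E Y (g.v (uN X))) : ∃ x, g.E x Y := by
  obtain ⟨Y, hY, hN, rfl⟩ := (E_u hu).1 h
  obtain ⟨α, hα⟩ := Ultrafilter.nonempty_of_mem hY
  exact dens (Ψ := fun _ E w => ∃ x, E x (w 0)) (UDef.ex (UDef.mem _ _)) (l1 hN) fun p _ =>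
    ⟨p, le_rfl, {o α}, countable_singleton _, fun g' _ hC hl =>
      ⟨_, (o_mem_sN (hC rfl) (hl _ (by simp))).2 hα⟩⟩

theorem u_sub (hu : uN X ∈ g.N) (hk : sN univ ∈ g.N) {Y : g.M} (h : g.E Y (g.v (uN X))) :
    Sub g.E Y (g.v (sN univ)) := by
  obtain ⟨Y, hY, hN, rfl⟩ := (E_u hu).1 h
  intro x hx
  obtain ⟨α, -, hα, rfl⟩ := (E_sN hN).1 hx
  exact (o_mem_sN hα hk).2 trivial

theorem u_avoid (hu : uN X ∈ g.N) (hk : sN univ ∈ g.N) {x : g.M} (h : g.E x (g.v (sN univ))) :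
    ∃ Y, g.E Y (g.v (uN X)) ∧ ¬ g.E x Y := by
  obtain ⟨α, -, hα, rfl⟩ := (E_sN hk).1 h
  exact dens (Ψ := fun _ E w => ∃ Y, E Y (w 0) ∧ ¬ E (w 1) Y)
    (UDef.ex ((UDef.mem _ _).and (UDef.mem _ _).not)) (l2 hu hα) fun p _ =>
    ⟨p, le_rfl, {sN {β | β ≠ α}}, countable_singleton _, fun g' _ hC hl =>
      ⟨_, (E_u (hl _ (by simp))).2 ⟨_, ne_mem α, hC rfl, rfl⟩, fun h =>
        (o_mem_sN (hl _ (by simp)) (hC rfl)).1 h rfl⟩⟩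

theorem u_inter (hu : uN X ∈ g.N) {Y Z : g.M} (hY : g.E Y (g.v (uN X)))
    (hZ : g.E Z (g.v (uN X))) : ∃ T, g.E T (g.v (uN X)) ∧ ∀ x, g.E x T → g.E x Y ∧ g.E x Z := by
  obtain ⟨Y, hY₁, hY', rfl⟩ := (E_u hu).1 hY
  obtain ⟨Z, hZ₁, hZ', rfl⟩ := (E_u hu).1 hZ
  refine dens (Ψ := fun _ E w => ∃ T, E T (w 0) ∧ ∀ x, E x T → E x (w 1) ∧ E x (w 2))
    (UDef.ex ((UDef.mem _ _).and (UDef.all ((UDef.mem _ _).imp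
      ((UDef.mem _ _).and (UDef.mem _ _)))))) (l3 hu hY' hZ') fun p _ =>
    ⟨p, le_rfl, {sN (Y ∩ Z)}, countable_singleton _, fun g' _ hC hl =>
      ⟨_, (E_u (hl _ (by simp))).2 ⟨_, Filter.inter_mem hY₁ hZ₁, hC rfl, rfl⟩, fun x hx => ?_⟩⟩
  obtain ⟨α, hα, h, rfl⟩ := (E_sN (hC rfl)).1 hx
  exact ⟨(o_mem_sN h (hl _ (by simp))).2 hα.1, (o_mem_sN h (hl _ (by simp))).2 hα.2⟩

theorem u_comp {Θ : ∀ M : Type (u + 1), (M → M → Prop) → M → M → M → Prop}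
    (hΘ : ∀ i j k, UDef (fun M E w => Θ M E (w i) (w j) (w k))) (hu : uN X ∈ g.N)
    (hk : sN univ ∈ g.N) (f a : g.M) (ha : g.E a (g.v (sN univ)))
    (H : ∀ ξ, g.E ξ a → ∃ Y, g.E Y (g.v (uN X)) ∧ ∀ x, g.E x Y → ¬ Θ _ g.E f ξ x) :
    ∃ Z, g.E Z (g.v (uN X)) ∧ ∀ ξ x, g.E ξ a → g.E x Z → ¬ Θ _ g.E f ξ x := by
  obtain ⟨γ, -, hγ, rfl⟩ := (E_sN hk).1 ha
  obtain ⟨σ, hσ, rfl⟩ := exists_v f
  let D : X → Set X → Cond X → Prop := fun ξ Y r => ∀ g' : Gen (Cond X), r ∈ g'.G → σ ∈ g'.N →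
    o ξ ∈ g'.N → sN Y ∈ g'.N → ∀ x, g'.E x (g'.v (sN Y)) → ¬ Θ _ g'.E (g'.v σ) (g'.v (o ξ)) x
  choose A hA hA₁ hA₂ using fun ξ : Iio γ => Cond.small_predense {r | ∃ Y ∈ UU X, D ξ.1 Y r}
  choose Y hY hY' using fun (ξ : Iio γ) (d : A ξ) => hA ξ d.2
  have hZ : (⋂ ξ, ⋂ d, Y ξ d) ∈ UU X :=
    Ms.comp _ (Ms.small γ) fun ξ => Ms.comp _ (hA₁ ξ) (hY ξ)
  refine dens (Ψ := fun M E w => (∀ ξ, E ξ (w 1) → ∃ Y, E Y (w 2) ∧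
      ∀ x, E x Y → ¬ Θ M E (w 0) ξ x) → ∃ Z, E Z (w 2) ∧
      ∀ ξ x, E ξ (w 1) → E x Z → ¬ Θ M E (w 0) ξ x) (by
      repeat' first
        | exact UDef.mem _ _ | exact hΘ _ _ _ | apply UDef.and | apply UDef.not
        | apply UDef.imp | apply UDef.all | apply UDef.ex) (l3 hσ hγ hu)
    (fun p _ => ⟨p, le_rfl, {sN (⋂ ξ, ⋂ d, Y ξ d)}, countable_singleton _, fun g' _ hC hl H =>
      ⟨_, (E_u (hl _ (by simp))).2 ⟨_, hZ, hC rfl, rfl⟩, fun ξ x hξ hx h => ?_⟩⟩) H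
  have hσ' : σ ∈ g'.N := hl _ (by simp)
  obtain ⟨ξ, hξγ, hξ', rfl⟩ := (E_o (hl _ (by simp))).1 hξ
  obtain ⟨α, hα, hα', rfl⟩ := (E_sN (hC rfl)).1 hx
  obtain ⟨T, hT, h'⟩ := H _ hξ
  obtain ⟨T, hT₁, hT₂, rfl⟩ := (E_u (hl _ (by simp))).1 hT
  obtain ⟨r, -, hr⟩ := transfer (Ψ := fun M E w => Θ M E (w 0) (w 1) (w 2) ∧
      ∀ x, E x (w 3) → ¬ Θ M E (w 0) (w 1) x)
    ((hΘ _ _ _).and (UDef.all ((UDef.mem _ _).imp (hΘ _ _ _).not))) (l4 hσ' hξ' hα' hT₂) ⟨h, h'⟩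
  have hrD : D ξ T r := by
    intro g₂ h₁ h₂ h₃ h₄
    refine dens (Ψ := fun M E w => ∀ x, E x (w 2) → ¬ Θ M E (w 0) (w 1) x)
      (UDef.all ((UDef.mem _ _).imp (hΘ _ _ _).not)) (l3 h₂ h₃ h₄) fun p hp => ?_
    obtain ⟨q, -, q₁, q₂⟩ := g₂.dir hp h₁
    exact ⟨q, q₁, {o α}, countable_singleton _, fun g₃ hq hC hl =>
      (hr g₃ (g₃.up hq q₂) (l4 (hl _ (by simp)) (hl _ (by simp)) (hC rfl) (hl _ (by simp)))).2⟩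
  obtain ⟨d, hd, s, h₁, h₂⟩ := hA₂ ⟨ξ, hξγ⟩ r ⟨T, hT₁, hrD⟩
  obtain ⟨g₂, hs, hC₂⟩ := exists_gen s {σ, o ξ, o α, sN T, sN (Y ⟨ξ, hξγ⟩ ⟨d, hd⟩)}
    (toFinite _).countable
  exact hY' ⟨ξ, hξγ⟩ ⟨d, hd⟩ g₂ (g₂.up hs h₂) (hC₂ (by simp)) (hC₂ (by simp)) (hC₂ (by simp)) _
    ((o_mem_sN (hC₂ (by simp)) (hC₂ (by simp))).2 (mem_iInter.1 (mem_iInter.1 hα _) _))
    (hr g₂ (g₂.up hs h₁) (l4 (hC₂ (by simp)) (hC₂ (by simp)) (hC₂ (by simp)) (hC₂ (by simp)))).1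

theorem isCard_k (hu : uN X ∈ g.N) (hk : sN univ ∈ g.N) : IsCard g.E (g.v (sN univ)) := by
  refine ⟨isOrd_k hk, fun a ha ⟨f, hf⟩ => ?_⟩
  obtain ⟨Z, hZ, h⟩ := u_comp (Θ := fun _ E f ξ x => App E f x ξ) (fun _ _ _ => UDef.app _ _ _)
    hu hk f a ha fun ξ _ => by
      by_cases h : ∃ x, App g.E f x ξ
      · obtain ⟨x, hx⟩ := h
        obtain ⟨Y, hY, h⟩ := u_avoid hu hk (fun_mem hf.1 hx).1
        exact ⟨Y, hY, fun y hy h' => h (hf.2 _ _ _ h' hx ▸ hy)⟩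
      · exact ⟨_, (E_u hu).2 ⟨_, Filter.univ_mem, hk, rfl⟩, fun x _ h' => h ⟨x, h'⟩⟩
  obtain ⟨x, hx⟩ := u_ne hu hZ
  obtain ⟨ξ, h₁, h₂⟩ := fun_ex hf.1 (u_sub hu hk hZ x hx)
  exact h ξ x h₁ hx h₂

/-- `A` is disjoint from a member of `U`. -/
def Small {M : Type u} (E : M → M → Prop) (U A : M) : Prop := ∃ Y, E Y U ∧ ∀ x, E x Y → ¬ E x A

theorem udef_small (i j : ℕ) : UDef.{u} (fun _ E w => Small E (w i) (w j)) :=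
  UDef.ex ((UDef.mem _ _).and (UDef.all ((UDef.mem _ _).imp (UDef.mem _ _).not)))

theorem exists_ideal (U k : g.M) : ∃ I, ∀ A, g.E A I ↔ Sub g.E A k ∧ Small g.E U A := by
  obtain ⟨P, hP⟩ := exists_power k
  obtain ⟨I, hI⟩ := sep_udef (udef_small 1 0) [U] P
  exact ⟨I, fun A => (hI A).trans (and_congr_left fun _ => hP A)⟩

theorem isIdeal (hu : uN X ∈ g.N) (hk : sN univ ∈ g.N) {I : g.M}
    (hI : ∀ A, g.E A I ↔ Sub g.E A (g.v (sN univ)) ∧ Small g.E (g.v (uN X)) A) :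
    IsIdeal g.E I (g.v (sN univ)) := by
  refine ⟨fun A h => ((hI A).1 h).1, fun h => ?_, fun A B h hB => ?_, fun a A ha h => ?_,
    fun S a f A hS ha hf hA => ?_⟩
  · obtain ⟨Y, hY, h⟩ := ((hI _).1 h).2
    obtain ⟨x, hx⟩ := u_ne hu hY
    exact h x hx (u_sub hu hk hY x hx)
  · obtain ⟨h₁, Y, hY, h₂⟩ := (hI _).1 h
    exact (hI _).2 ⟨fun x hx => h₁ x (hB x hx), Y, hY, fun x hx h => h₂ x hx (hB x h)⟩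
  · obtain ⟨Y, hY, h'⟩ := u_avoid hu hk ha
    exact (hI _).2 ⟨fun x hx => (h x).1 hx ▸ ha, Y, hY, fun x hx hx' => h' ((h x).1 hx' ▸ hx)⟩
  · obtain ⟨Z, hZ, h⟩ := u_comp (Θ := fun _ E f ξ x => ∃ B, App E f B ξ ∧ E x B)
      (fun _ _ _ => UDef.ex ((UDef.app _ _ _).and (UDef.mem _ _))) hu hk f a ha fun ξ _ => by
        by_cases h : ∃ B, App g.E f B ξ
        · obtain ⟨B, hB⟩ := h
          obtain ⟨Y, hY, h⟩ := ((hI B).1 (hS B (fun_mem hf.1 hB).1)).2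
          exact ⟨Y, hY, fun y hy ⟨B', h₁, h₂⟩ => h y hy (hf.2 _ _ _ h₁ hB ▸ h₂)⟩
        · exact ⟨_, (E_u hu).2 ⟨_, Filter.univ_mem, hk, rfl⟩, fun x _ ⟨B, h', _⟩ => h ⟨B, h'⟩⟩
    refine (hI _).2 ⟨fun x hx => ?_, Z, hZ, fun x hx hx' => ?_⟩
    · obtain ⟨B, h₁, h₂⟩ := (hA x).1 hx
      exact ((hI B).1 (hS B h₁)).1 x h₂
    · obtain ⟨B, h₁, h₂⟩ := (hA x).1 hx'
      obtain ⟨ξ, h₃, h₄⟩ := fun_ex hf.1 h₁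
      exact h ξ x h₃ hx ⟨B, h₄, h₂⟩

/-! ### Precipitousness -/

/-- The condition decides the rank of the value of `σ` at `α`. -/
def Dc (σ : Name (Cond X)) (α : X) (q : Cond X) (ξ : Ordinal.{u}) : Prop :=
  ∃ ρ, Dec ρ q ξ ∧ ∀ g : Gen (Cond X), q ∈ g.G → σ ∈ g.N → o α ∈ g.N → ρ ∈ g.N →
    App g.E (g.v σ) (g.v (o α)) (g.v ρ)

noncomputable def aN (q : X → Cond X) (Y : Set X) : Name (Cond X) :=
  .mk Y (fun α => o α.1) (fun α => q α.1)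

theorem E_aN {q : X → Cond X} {Y : Set X} (h : aN q Y ∈ g.N) {x : g.M} :
    g.E x (g.v (aN q Y)) ↔ ∃ α ∈ Y, q α ∈ g.G ∧ o α ∈ g.N ∧ g.v (o α) = x := by
  rw [E_v h]
  exact ⟨fun ⟨α, h⟩ => ⟨α.1, α.2, h⟩, fun ⟨α, h₁, h₂⟩ => ⟨⟨α, h₁⟩, h₂⟩⟩

noncomputable def dN (σ : Name (Cond X)) : Name (Cond X) :=
  fam fun z : {z : (X → Cond X) × Set X // ∀ α ∈ z.2, ∃ ξ, Dc σ α (z.1 α) ξ} => aN z.1.1 z.1.2

theorem dN_dense (hu : uN X ∈ g.N) (hk : sN univ ∈ g.N) {σ : Name (Cond X)} (hσ : σ ∈ g.N)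
    (hd : dN σ ∈ g.N) (hf : ∀ a, g.E a (g.v (sN univ)) → ∃ x, App g.E (g.v σ) a x) (B : g.M)
    (hB : ¬ Small g.E (g.v (uN X)) B) :
    ∃ A, g.E A (g.v (dN σ)) ∧ Sub g.E A B ∧ Sub g.E A (g.v (sN univ)) ∧
      ¬ Small g.E (g.v (uN X)) A := by
  classical
  obtain ⟨β, hβ, rfl⟩ := exists_v B
  obtain ⟨p₀, hp₀, H⟩ := transfer (Ψ := fun M E w => (∀ a, E a (w 1) → ∃ x, App E (w 0) a x) ∧
      ¬ Small E (w 2) (w 3)) ((UDef.all ((UDef.mem _ _).imp (UDef.ex (UDef.app _ _ _)))).and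
      (udef_small _ _).not) (l4 hσ hk hu hβ) ⟨hf, hB⟩
  refine dens (Ψ := fun M E w => ∃ A, E A (w 0) ∧ Sub E A (w 1) ∧ Sub E A (w 2) ∧
      ¬ Small E (w 3) A) (UDef.ex ((UDef.mem _ _).and ((udef_sub _ _).and
      ((udef_sub _ _).and (udef_small _ _).not)))) (l4 hd hβ hk hu) fun p₁ hp₁ => ?_
  obtain ⟨p, -, hp, hp'⟩ := g.dir hp₁ hp₀
  let Y : Set X := {α | ∃ q ≤ p, FMem (o α) β q ∧ ∃ ξ, Dc σ α q ξ}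
  have hY : Y ∈ UU X := by
    by_contra h
    obtain ⟨g', hg, hC⟩ := exists_gen p {σ, sN univ, uN X, β, sN Yᶜ} (toFinite _).countable
    have b₁ : σ ∈ g'.N := hC (by simp)
    have b₂ : sN univ ∈ g'.N := hC (by simp)
    have b₃ : β ∈ g'.N := hC (by simp)
    have b₄ : sN Yᶜ ∈ g'.N := hC (by simp)
    obtain ⟨h₁, h₂⟩ := H g' (g'.up hg hp') (l4 b₁ b₂ (hC (by simp)) b₃)
    refine h₂ ⟨_, (E_u (hC (by simp))).2 ⟨_, Ultrafilter.compl_mem_iff_notMem.2 h, b₄, rfl⟩,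
      fun x hx hx' => ?_⟩
    obtain ⟨α, hα, hα', rfl⟩ := (E_sN b₄).1 hx
    obtain ⟨y, hy⟩ := h₁ _ ((o_mem_sN hα' b₂).2 trivial)
    obtain ⟨ρ, hρ, rfl⟩ := exists_v y
    obtain ⟨r₁, hr₁, e₁⟩ := transfer_app b₁ hα' hρ hy
    obtain ⟨r₂, hr₂, e₂⟩ := (v_mem_iff hα' b₃).1 hx'
    obtain ⟨r₃, hr₃, c₁, c₂⟩ := g'.dir hr₁ hr₂
    obtain ⟨r₄, -, c₃, c₄⟩ := g'.dir hr₃ hg
    obtain ⟨r₅, c₅, ξ, hξ⟩ := dec_dense ρ r₄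
    exact hα ⟨r₅, c₅.trans c₄, e₂.mono (c₅.trans (c₃.trans c₂)), ξ, ρ, hξ,
      fun g₂ h => e₁ g₂ (g₂.up h (c₅.trans (c₃.trans c₁)))⟩
  have hq : ∀ α, ∃ q, α ∈ Y → q ≤ p ∧ FMem (o α) β q ∧ ∃ ξ, Dc σ α q ξ := fun α => by
    by_cases h : α ∈ Y
    · obtain ⟨q, h⟩ := h
      exact ⟨q, fun _ => h⟩
    · exact ⟨p, fun h' => absurd h' h⟩
  choose q hq using hq
  obtain ⟨p', hp₂, hr⟩ := p.reduction q hY fun α h => (hq α h).1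
  refine ⟨p', hp₂.trans hp, {aN q Y}, countable_singleton _, fun g' hg hC hl => ⟨g'.v (aN q Y),
    (E_fam (hl (dN σ) (by simp))).2 ⟨⟨(q, Y), fun α h => (hq α h).2.2⟩, hC rfl, rfl⟩,
    fun x hx => ?_, fun x hx => ?_, ?_⟩⟩
  · obtain ⟨α, h₁, h₂, h₃, rfl⟩ := (E_aN (hC rfl)).1 hx
    exact (v_mem_iff h₃ (hl β (by simp))).2 ⟨_, h₂, (hq α h₁).2.1⟩
  · obtain ⟨α, -, -, h₃, rfl⟩ := (E_aN (hC rfl)).1 hx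
    exact (o_mem_sN h₃ (hl _ (by simp))).2 trivial
  · rintro ⟨Z, hZ, h⟩
    obtain ⟨Z, hZ₁, hZ₂, rfl⟩ := (E_u (hl _ (by simp))).1 hZ
    obtain ⟨r, hr₁, h'⟩ := transfer (Ψ := fun M E w => ∀ x, E x (w 0) → ¬ E x (w 1))
      (UDef.all ((UDef.mem _ _).imp (UDef.mem _ _).not)) (l2 hZ₂ (hC rfl)) h
    obtain ⟨s, -, s₁, s₂⟩ := g'.dir hr₁ hg
    obtain ⟨α, ⟨⟨t, t₁, t₂⟩, hα₁⟩, hα₂⟩ := Ultrafilter.nonempty_of_mem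
      (Filter.inter_mem (Filter.inter_mem (hr s s₂) hY) hZ₁)
    obtain ⟨g₂, ht, hC₂⟩ := exists_gen t {sN Z, aN q Y, o α} (toFinite _).countable
    exact h' g₂ (g₂.up ht (t₂.trans s₁)) (l2 (hC₂ (by simp)) (hC₂ (by simp))) _
      ((o_mem_sN (hC₂ (by simp)) (hC₂ (by simp))).2 hα₂)
      ((E_aN (hC₂ (by simp))).2 ⟨α, hα₁, g₂.up ht t₁, hC₂ (by simp), rfl⟩)

/-- The set on which two functions decrease. -/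
def Desc {M : Type u} (E : M → M → Prop) (U A A' f f' : M) : Prop :=
  ∀ Y, E Y U → ∃ a, E a Y ∧ E a A ∧ E a A' ∧ ∀ x y, App E f' a x → App E f a y → E x y

theorem udef_desc : UDef.{u} (fun _ E w => Desc E (w 0) (w 1) (w 2) (w 3) (w 4)) := by
  unfold Desc
  repeat' first
    | exact UDef.mem _ _ | exact UDef.app _ _ _ | apply UDef.and
    | apply UDef.imp | apply UDef.all | apply UDef.ex

theorem desc_mem (hu : uN X ∈ g.N) {σ σ' : Name (Cond X)} {q q' : X → Cond X} {Y Y' : Set X}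
    {F F' : X → Ordinal.{u}} (hσ : σ ∈ g.N) (hσ' : σ' ∈ g.N) (ha : aN q Y ∈ g.N)
    (ha' : aN q' Y' ∈ g.N) (hF : ∀ α ∈ Y, Dc σ α (q α) (F α))
    (hF' : ∀ α ∈ Y', Dc σ' α (q' α) (F' α))
    (h : Desc g.E (g.v (uN X)) (g.v (aN q Y)) (g.v (aN q' Y')) (g.v σ) (g.v σ')) :
    {α | F' α < F α} ∈ UU X := by
  by_contra hn
  obtain ⟨p, -, H⟩ := transfer udef_desc (lcons hu (l4 ha ha' hσ hσ')) h
  obtain ⟨g₁, hp, hC⟩ := exists_gen p {uN X, aN q Y, aN q' Y', σ, σ', sN {α | F' α < F α}ᶜ}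
    (toFinite _).countable
  have b₁ : aN q Y ∈ g₁.N := hC (by simp)
  have b₂ : aN q' Y' ∈ g₁.N := hC (by simp)
  have b₃ : σ ∈ g₁.N := hC (by simp)
  have b₄ : σ' ∈ g₁.N := hC (by simp)
  have b₅ : sN {α | F' α < F α}ᶜ ∈ g₁.N := hC (by simp)
  obtain ⟨a, h₁, h₂, h₃, h₄⟩ := H g₁ hp (lcons (hC (by simp)) (l4 b₁ b₂ b₃ b₄)) _
    ((E_u (hC (by simp))).2 ⟨_, Ultrafilter.compl_mem_iff_notMem.2 hn, b₅, rfl⟩)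
  obtain ⟨α, hα, hα', rfl⟩ := (E_sN b₅).1 h₁
  obtain ⟨α₁, c₁, c₂, c₃, e⟩ := (E_aN b₁).1 h₂
  obtain rfl := o_inj c₃ hα' e
  obtain ⟨α₂, d₁, d₂, d₃, e⟩ := (E_aN b₂).1 h₃
  obtain rfl := o_inj d₃ hα' e
  obtain ⟨r, hr, H'⟩ := transfer (Ψ := fun M E w => ∀ x y, App E (w 1) (w 2) x →
      App E (w 0) (w 2) y → E x y) (UDef.all (UDef.all ((UDef.app _ _ _).imp
      ((UDef.app _ _ _).imp (UDef.mem _ _))))) (l3 b₃ b₄ hα') h₄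
  obtain ⟨s, hs, s₁, s₂⟩ := g₁.dir c₂ d₂
  obtain ⟨t, -, t₁, t₂⟩ := g₁.dir hs hr
  obtain ⟨ρ, r₁, r₂⟩ := hF _ c₁
  obtain ⟨ρ', r₃, r₄⟩ := hF' _ d₁
  obtain ⟨g₂, ht, hC₂⟩ := exists_gen t {σ, σ', o α₂, ρ, ρ'} (toFinite _).countable
  have := H' g₂ (g₂.up ht t₂) (l3 (hC₂ (by simp)) (hC₂ (by simp)) (hC₂ (by simp))) _ _
    (r₄ g₂ (g₂.up ht (t₁.trans s₂)) (hC₂ (by simp)) (hC₂ (by simp)) (hC₂ (by simp)))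
    (r₂ g₂ (g₂.up ht (t₁.trans s₁)) (hC₂ (by simp)) (hC₂ (by simp)) (hC₂ (by simp)))
  obtain ⟨v, hv, hm⟩ := (v_mem_iff (hC₂ (by simp)) (hC₂ (by simp))).1 this
  obtain ⟨z, -, z₁, z₂⟩ := g₂.dir hv ht
  exact hα (dec_lt (hm.mono z₁) (r₃.mono (z₂.trans (t₁.trans s₂)))
    (r₁.mono (z₂.trans (t₁.trans s₁))))

theorem precipitous (hu : uN X ∈ g.N) (hk : sN univ ∈ g.N) (hd : ∀ σ ∈ g.N, dN σ ∈ g.N) {I : g.M}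
    (hI : ∀ A, g.E A I ↔ Sub g.E A (g.v (sN univ)) ∧ Small g.E (g.v (uN X)) A) :
    Precipitous g.E I (g.v (sN univ)) := by
  classical
  intro G hG
  have hem : g.E (g.v emp) I := (hI _).2 ⟨fun x hx => absurd hx (not_E_emp x), _,
    (E_u hu).2 ⟨_, Filter.univ_mem, hk, rfl⟩, fun x _ => not_E_emp x⟩
  have key : ∀ f : {f // ∃ Y, IsFun g.E f (g.v (sN univ)) Y}, ∃ (σ : Name (Cond X))
      (q : X → Cond X) (Y : Set X) (F : X → Ordinal.{u}), σ ∈ g.N ∧ g.v σ = f.1 ∧ aN q Y ∈ g.N ∧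
      g.v (aN q Y) ∈ G ∧ ∀ α ∈ Y, Dc σ α (q α) (F α) := by
    rintro ⟨f, T, hf⟩
    obtain ⟨σ, hσ, rfl⟩ := exists_v f
    obtain ⟨A, hA, hA'⟩ := hG.2.2.2 (g.v (dN σ)) fun B hB => by
      obtain ⟨A, h₁, h₂, h₃, h₄⟩ := dN_dense hu hk hσ (hd σ hσ)
        (fun a ha => (hf.2 a ha).exists) B fun h => hB.2 ((hI B).2 ⟨hB.1, h⟩)
      exact ⟨A, h₁, ⟨h₃, fun h => h₄ ((hI A).1 h).2⟩, _, hem, fun x hx => Or.inl (h₂ x hx)⟩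
    obtain ⟨⟨⟨q, Y⟩, h⟩, h₁, rfl⟩ := (E_fam (hd σ hσ)).1 hA'
    have h' : ∀ α ∈ Y, ∃ ξ, Dc σ α (q α) ξ := h
    choose! F hF using h'
    exact ⟨σ, q, Y, F, hσ, rfl, h₁, hA, hF⟩
  choose σ q Y F h₁ h₂ h₃ h₄ h₅ using key
  have wf : WellFounded fun F' F : X → Ordinal.{u} => {α | F' α < F α} ∈ UU X := by
    rw [wellFounded_iff_isEmpty_descending_chain]
    refine ⟨fun ⟨s, hs⟩ => ?_⟩
    obtain ⟨α, hα⟩ := Ultrafilter.nonempty_of_mem (comp_ct _ hs)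
    exact (wellFounded_iff_isEmpty_descending_chain.1 wellFounded_lt).false
      ⟨fun n => s n α, fun n => mem_iInter.1 hα n⟩
  refine Subrelation.wf (fun {f' f} ⟨A, hA, h⟩ => ?_) (InvImage.wf F wf)
  refine desc_mem hu (h₁ f) (h₁ f') (h₃ f) (h₃ f') (h₅ f) (h₅ f') fun Z hZ => ?_
  rw [h₂, h₂]
  obtain ⟨B, hB, ⟨C₁, c₁, e₁⟩, C₂, c₂, e₂⟩ := hG.2.2.1 _ (h₄ f) _ (h₄ f')
  obtain ⟨D, hD, ⟨C₃, c₃, e₃⟩, C₄, c₄, e₄⟩ := hG.2.2.1 _ hA _ hB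
  obtain ⟨Y₁, y₁, z₁⟩ := ((hI _).1 c₁).2
  obtain ⟨Y₂, y₂, z₂⟩ := ((hI _).1 c₂).2
  obtain ⟨Y₃, y₃, z₃⟩ := ((hI _).1 c₃).2
  obtain ⟨Y₄, y₄, z₄⟩ := ((hI _).1 c₄).2
  obtain ⟨T₁, t₁, v₁⟩ := u_inter hu y₁ y₂
  obtain ⟨T₂, t₂, v₂⟩ := u_inter hu y₃ y₄
  obtain ⟨T₃, t₃, v₃⟩ := u_inter hu t₁ t₂
  obtain ⟨T₄, t₄, v₄⟩ := u_inter hu t₃ hZ
  by_contra hn
  refine (hG.1 D hD).2 ((hI D).2 ⟨(hG.1 D hD).1, T₄, t₄, fun x hx hx' => hn ?_⟩)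
  have w₁ := v₁ x (v₃ x (v₄ x hx).1).1
  have w₂ := v₂ x (v₃ x (v₄ x hx).1).2
  have hxB := (e₄ x hx').resolve_right (z₄ x w₂.2)
  exact ⟨x, (v₄ x hx).2, (e₁ x hxB).resolve_right (z₁ x w₁.1), (e₂ x hxB).resolve_right (z₂ x w₁.2),
    fun a b => h x a b ((e₃ x hx').resolve_right (z₃ x w₂.1))⟩

end Pool.Agent.MP_4faeaf_lc
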