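import Pool.Agent.MP_4faeaf_lc.Ideal
import Pool.Agent.MP_4faeaf_lc.Game

namespace Pool.Agent.MP_4faeaf_lc

open Pool.Agent.MP_c6cf52_lc Pool.Agent.MP_c6cf52_lc.Name Pool.Agent.MP_c6cf52_lc.Gen Set Cardinal

universe u

section

variable {X : Type u} [LinearOrder X] [Ms X]

noncomputable def cutN (C : Cut X) : Name (Cond X) :=
  .mk {z : X × Cond X // C.R z.1 z.2} (fun z => o z.1.1) (fun z => z.1.2)

/-- The legal move of Cut in round `j`. -/
def mv (f : ℕ → Cut X × Bool) (j : ℕ) : Cut X :=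
  ⟨fun α r => (f j).1.R α r ∧ ∀ i < j, side (f i) α r, fun _ _ _ hq h =>
    ⟨(f j).1.mono _ _ _ hq h.1, fun i hi => side_mono (h.2 i hi) hq⟩⟩

noncomputable def initN (f : ℕ → Cut X × Bool) (k : ℕ) : Name (Cond X) :=
  relN (fun i : {i : ULift.{u} ℕ // i.down ≤ k} => nN X i.1.down) (fun i => cutN (mv f i.1.down))
    (fun _ => ⊤)

noncomputable def seqN (f : ℕ → Cut X × Bool) : Name (Cond X) :=
  relN (fun i : ULift.{u} ℕ => nN X i.down) (fun i => cutN (mv f i.down)) (fun _ => ⊤)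

noncomputable def rngN (f : ℕ → Cut X × Bool) : Name (Cond X) :=
  fam fun i : ULift.{u} ℕ => cutN (mv f i.down)

theorem initN_congr {f f' : ℕ → Cut X × Bool} {k : ℕ} (h₁ : (f k).1 = (f' k).1)
    (h₂ : ∀ i < k, f i = f' i) : initN f k = initN f' k := by
  unfold initN
  congr 1
  funext ⟨⟨i⟩, hi⟩
  have e₁ : (f i).1 = (f' i).1 := by
    rcases (show i ≤ k from hi).eq_or_lt with rfl | h
    exacts [h₁, congrArg _ (h₂ i h)]
  congr 1
  unfold mv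
  congr 1
  funext α r
  rw [e₁]
  exact congrArg _ (propext (forall₂_congr fun j hj => by rw [h₂ j (hj.trans_le hi)]))

variable {g : Gen (Cond X)}

theorem E_cutN {C : Cut X} (h : cutN C ∈ g.N) {x : g.M} :
    g.E x (g.v (cutN C)) ↔ ∃ α, ∃ r ∈ g.G, C.R α r ∧ o α ∈ g.N ∧ g.v (o α) = x := by
  rw [E_v h]
  exact ⟨fun ⟨z, h₁, h₂⟩ => ⟨z.1.1, z.1.2, h₁, z.2, h₂⟩,
    fun ⟨α, r, h₁, h₂, h₃⟩ => ⟨⟨(α, r), h₂⟩, h₁, h₃⟩⟩

theorem o_cutN {C : Cut X} (h : cutN C ∈ g.N) {α : X} (hα : o α ∈ g.N) :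
    g.E (g.v (o α)) (g.v (cutN C)) ↔ ∃ r ∈ g.G, C.R α r := by
  rw [E_cutN h]
  refine ⟨fun ⟨β, r, h₁, h₂, h₃, e⟩ => ⟨r, h₁, o_inj h₃ hα e ▸ h₂⟩,
    fun ⟨r, h₁, h₂⟩ => ⟨α, r, h₁, h₂, hα, rfl⟩⟩

theorem not_o_cutN {C : Cut X} (h : cutN C ∈ g.N) {α : X} (hα : o α ∈ g.N)
    (hn : ¬ g.E (g.v (o α)) (g.v (cutN C))) : ∃ r ∈ g.G, ∀ r' ≤ r, ¬ C.R α r' := by
  obtain ⟨p, hp, H⟩ := transfer (UDef.mem 0 1).not (l2 hα h) hn
  refine ⟨p, hp, fun r hr h' => ?_⟩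
  obtain ⟨g', hg, hC⟩ := exists_gen r {o α, cutN C} (toFinite _).countable
  exact H g' (g'.up hg hr) (l2 (hC (by simp)) (hC (by simp)))
    ((o_cutN (hC (by simp)) (hC (by simp))).2 ⟨r, hg, h'⟩)

theorem app_seqN {f : ℕ → Cut X × Bool} (h : seqN f ∈ g.N) {s t : g.M} :
    App g.E (g.v (seqN f)) s t ↔ ∃ i, s = g.v (nN X i) ∧ t = g.v (cutN (mv f i)) := by
  unfold seqN at h ⊢
  rw [app_relN h]
  exact ⟨fun ⟨i, _, _, _, h⟩ => ⟨i.down, h⟩,
    fun ⟨i, h'⟩ => ⟨⟨i⟩, g.top, nN_mem _, (relN_mem h ⟨i⟩).2, h'⟩⟩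

theorem isFun_seqN {f : ℕ → Cut X × Bool} (h : seqN f ∈ g.N) (h' : rngN f ∈ g.N) :
    IsFun g.E (g.v (seqN f)) (g.v (omN X)) (g.v (rngN f)) := by
  constructor
  · intro p hp
    obtain ⟨i, -, -, h₂, rfl⟩ := (E_relN h).1 hp
    exact ⟨_, _, nN_om _, (E_fam h').2 ⟨i, h₂, rfl⟩, isPair_pr _ _⟩
  · intro a ha
    obtain ⟨n, rfl⟩ := E_om.1 ha
    refine ⟨_, (app_seqN h).2 ⟨n, rfl, rfl⟩, fun b hb => ?_⟩
    obtain ⟨i, e, rfl⟩ := (app_seqN h).1 hb
    rw [nN_inj e]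

theorem isInit_initN {f : ℕ → Cut X × Bool} {k : ℕ} (h : seqN f ∈ g.N) (h' : initN f k ∈ g.N) :
    IsInit g.E (g.v (seqN f)) (g.v (nN X k)) (g.v (initN f k)) := by
  intro p
  unfold initN at h' ⊢
  rw [E_relN h']
  constructor
  · rintro ⟨⟨⟨i⟩, hi⟩, -, -, -, rfl⟩
    refine ⟨app_iff.1 ((app_seqN h).2 ⟨i, rfl, rfl⟩), _, _, isPair_pr _ _, ?_⟩
    rcases (show i ≤ k from hi).eq_or_lt with rfl | h
    exacts [Or.inr rfl, Or.inl (nN_lt.2 h)]
  · rintro ⟨h₁, m, y, h₂, h₃⟩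
    obtain rfl := isPair_iff.1 h₂
    obtain ⟨i, rfl, rfl⟩ := (app_seqN h).1 (app_iff.2 h₁)
    have hi : i ≤ k := h₃.elim (fun h => (nN_lt.1 h).le) fun h => (nN_inj h).le
    exact ⟨⟨⟨i⟩, hi⟩, g.top, nN_mem _, (relN_mem h ⟨i⟩).2, rfl⟩

theorem udef_isInit (i j k : ℕ) : UDef.{u} (fun _ E w => IsInit E (w i) (w j) (w k)) := by
  unfold IsInit
  repeat' first
    | exact UDef.mem _ _ | exact UDef.eq _ _ | exact UDef.isPair _ _ _ | apply UDef.and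
    | apply UDef.or | apply UDef.iff | apply UDef.all | apply UDef.ex

theorem udef_surv (i j k l m : ℕ) :
    UDef.{u} (fun _ E w => Surv E (w i) (w j) (w k) (w l) (w m)) := by
  unfold Surv
  repeat' first
    | exact UDef.mem _ _ | exact UDef.app _ _ _ | exact udef_isInit _ _ _ | apply UDef.and
    | apply UDef.iff | apply UDef.imp | apply UDef.all

theorem not_chooseWins (hk : sN univ ∈ g.N) :
    ¬ ChooseWins g.E (g.v (omN X)) (g.v (sN univ)) := by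
  rintro ⟨s, hs⟩
  obtain ⟨σ, hσ, rfl⟩ := exists_v s
  obtain ⟨p₀, -, H⟩ := transfer (Ψ := fun M E w => ∀ c Y, IsFun E c (w 1) Y →
      (∀ n A a, App E c n A → E a A → Surv E (w 2) (w 0) c n a) →
      ∃ a b, a ≠ b ∧ Surv E (w 2) (w 0) c (w 1) a ∧ Surv E (w 2) (w 0) c (w 1) b) (by
      repeat' first
        | exact UDef.mem _ _ | exact UDef.app _ _ _ | exact UDef.isFun _ _ _
        | exact UDef.ne _ _ | exact udef_surv _ _ _ _ _ | apply UDef.and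
        | apply UDef.imp | apply UDef.all | apply UDef.ex) (l3 hσ omN_mem hk) hs
  refine Strat.false (X := X) ⟨p₀, fun f k p => ∀ g' : Gen (Cond X), p ∈ g'.G → σ ∈ g'.N →
    initN f k ∈ g'.N → (g'.E (g'.v (initN f k)) (g'.v σ) ↔ (f k).2 = true),
    fun f k p q hq h g' hg => h g' (g'.up hg hq), fun f f' k p e h => ?_, fun f k p C => ?_,
    fun f q hq hA => ?_⟩
  · rwa [← e k le_rfl, ← initN_congr (congrArg _ (e k le_rfl)) fun i hi => e i hi.le]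
  · have e : ∀ b, initN (Function.update f k (C, b)) k = initN (Function.update f k (C, true)) k :=
      fun b => initN_congr (by simp) fun i hi => by simp [hi.ne]
    obtain ⟨g', hp, hC⟩ := exists_gen p {σ, initN (Function.update f k (C, true)) k}
      (toFinite _).countable
    have hl := l2 (hC (Or.inr rfl)) (hC (Or.inl rfl))
    by_cases h : g'.E (g'.v (initN (Function.update f k (C, true)) k)) (g'.v σ)
    · obtain ⟨r, hr, H'⟩ := transfer (UDef.mem 0 1) hl h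
      obtain ⟨q, -, h₁, h₂⟩ := g'.dir hp hr
      exact ⟨q, h₁, true, fun g₂ hq a b => iff_of_true (H' g₂ (g₂.up hq h₂) (l2 b a)) (by simp)⟩
    · obtain ⟨r, hr, H'⟩ := transfer (UDef.mem 0 1).not hl h
      obtain ⟨q, -, h₁, h₂⟩ := g'.dir hp hr
      refine ⟨q, h₁, false, fun g₂ hq a b => ?_⟩
      rw [e] at b ⊢
      exact iff_of_false (H' g₂ (g₂.up hq h₂) (l2 b a)) (by simp)
  · obtain ⟨g', hg, hC⟩ := exists_gen q ({σ, sN univ, seqN f, rngN f} ∪ range (initN f))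
      ((toFinite _).countable.union (countable_range _))
    have b₁ : σ ∈ g'.N := hC (Or.inl (by simp))
    have b₂ : sN univ ∈ g'.N := hC (Or.inl (by simp))
    have b₃ : seqN f ∈ g'.N := hC (Or.inl (by simp))
    have b₄ : rngN f ∈ g'.N := hC (Or.inl (by simp))
    have b₅ : ∀ k, initN f k ∈ g'.N := fun k => hC (Or.inr ⟨k, rfl⟩)
    have b₆ : ∀ k, cutN (mv f k) ∈ g'.N := fun k => (relN_mem b₃ ⟨k⟩).2
    have hin : ∀ k t, IsInit g'.E (g'.v (seqN f)) (g'.v (nN X k)) t →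
        (g'.E t (g'.v σ) ↔ (f k).2 = true) := fun k t ht => by
      rw [show t = g'.v (initN f k) from
        ext fun x => (ht x).trans (isInit_initN b₃ (b₅ k) x).symm]
      exact hA k g' hg b₁ (b₅ k)
    obtain ⟨a, b, hne, ha, hb⟩ := H g' (g'.up hg hq) (l3 b₁ omN_mem b₂) _ _ (isFun_seqN b₃ b₄) (by
      intro n A a hn ha
      obtain ⟨n, rfl, rfl⟩ := (app_seqN b₃).1 hn
      obtain ⟨α, r, hr, h₁, hα, rfl⟩ := (E_cutN (b₆ n)).1 ha
      refine ⟨(o_mem_sN hα b₂).2 trivial, fun m A t hm hA' ht => ?_⟩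
      obtain ⟨m, rfl, rfl⟩ := (app_seqN b₃).1 hA'
      have hm' : m < n := nN_lt.1 hm
      refine (hin m t ht).trans (Iff.trans ?_ (o_cutN (b₆ m) hα).symm)
      have h₂ := h₁.2 m hm'
      generalize e : f m = z at h₂
      obtain ⟨C, _ | _⟩ := z
      · refine iff_of_false (by simp) fun ⟨r', hr', h₃⟩ => ?_
        obtain ⟨s, -, s₁, s₂⟩ := g'.dir hr hr'
        have h₄ : (f m).1.R α r' := h₃.1
        rw [e] at h₄
        exact h₂ s s₁ (C.mono _ _ _ s₂ h₄)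
      · refine iff_of_true rfl ⟨r, hr, ?_, fun i hi => h₁.2 i (hi.trans hm')⟩
        rw [e]
        exact h₂)
    have key : ∀ a, Surv g'.E (g'.v (sN univ)) (g'.v σ) (g'.v (seqN f)) (g'.v (omN X)) a →
        ∃ α, g'.v (o α) = a ∧ ∀ k, ∃ r ∈ g'.G, ∀ i < k, side (f i) α r := by
      intro a ha
      obtain ⟨α, -, hα, rfl⟩ := (E_sN b₂).1 ha.1
      refine ⟨α, rfl, fun k => ?_⟩
      induction k with
      | zero => exact ⟨q, hg, fun _ h => absurd h (Nat.not_lt_zero _)⟩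
      | succ k ih =>
        obtain ⟨r, hr, h₁⟩ := ih
        have h₂ := (hin k _ (isInit_initN b₃ (b₅ k))).symm.trans
          (ha.2 _ _ _ (nN_om k) ((app_seqN b₃).2 ⟨k, rfl, rfl⟩) (isInit_initN b₃ (b₅ k)))
        suffices ∃ r' ∈ g'.G, r' ≤ r ∧ side (f k) α r' by
          obtain ⟨r', h₃, h₄, h₅⟩ := this
          refine ⟨r', h₃, fun i hi => ?_⟩
          rcases Nat.lt_succ_iff_lt_or_eq.1 hi with hi | rfl
          exacts [side_mono (h₁ i hi) h₄, h₅]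
        generalize e : f k = z at h₂
        obtain ⟨C, _ | _⟩ := z
        · obtain ⟨r', hr', h₃⟩ := not_o_cutN (b₆ k) hα fun h => by simpa using h₂.2 h
          obtain ⟨s, hs, s₁, s₂⟩ := g'.dir hr hr'
          refine ⟨s, hs, s₁, fun t ht h => h₃ t (ht.trans s₂) ⟨?_, fun i hi =>
            side_mono (h₁ i hi) (ht.trans s₁)⟩⟩
          rw [e]
          exact h
        · obtain ⟨r', hr', h₃⟩ := (o_cutN (b₆ k) hα).1 (h₂.1 rfl)
          obtain ⟨s, hs, s₁, s₂⟩ := g'.dir hr hr'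
          have h₄ : (f k).1.R α r' := h₃.1
          rw [e] at h₄
          exact ⟨s, hs, s₁, C.mono _ _ _ s₂ h₄⟩
    obtain ⟨α, rfl, hα⟩ := key a ha
    obtain ⟨β, rfl, hβ⟩ := key b hb
    have : ∀ k, ∃ r ∈ g'.G, r ≤ q ∧ side (f k) α r ∧ side (f k) β r := fun k => by
      obtain ⟨r₁, h₁, h₂⟩ := hα (k + 1)
      obtain ⟨r₂, h₃, h₄⟩ := hβ (k + 1)
      obtain ⟨s, hs, s₁, s₂⟩ := g'.dir h₁ h₃
      obtain ⟨t, ht, t₁, t₂⟩ := g'.dir hs hg
      exact ⟨t, ht, t₂, side_mono (h₂ k (Nat.lt_succ_self k)) (t₁.trans s₁),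
        side_mono (h₄ k (Nat.lt_succ_self k)) (t₁.trans s₂)⟩
    choose r h₁ h₂ h₃ using this
    obtain ⟨t, ht⟩ := lower_of_dir Cond.closed g' r h₁
    exact ⟨t, (ht 0).trans (h₂ 0), α, β, fun e => hne (e ▸ rfl),
      fun k => ⟨side_mono (h₃ k).1 (ht k), side_mono (h₃ k).2 (ht k)⟩⟩

theorem main' (X : Type u) [LinearOrder X] [Ms X] : ∃ (M : Type (u + 1)) (E : M → M → Prop), Countable M ∧ WellFounded E ∧ IsZFC E ∧
    ∃ w w1 w2 I, IsOmega E w ∧ IsSuccCard E w w1 ∧ IsSuccCard E w1 w2 ∧ CH E w w1 ∧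
      IsIdeal E I w2 ∧ Precipitous E I w2 ∧ ¬ ChooseWins E w w2 := by
  obtain ⟨g, hN, hC, hd⟩ := exists_gen' {o (w1 X), sN univ, uN X} (toFinite _).countable dN
  have h₁ : o (w1 X) ∈ g.N := hC (by simp)
  have hk : sN univ ∈ g.N := hC (by simp)
  have hu : uN X ∈ g.N := hC (by simp)
  obtain ⟨I, hI⟩ := exists_ideal (g.v (uN X)) (g.v (sN univ))
  exact ⟨g.M, g.E, countable_M hN, E_wf, g.isZFC, _, _, _, I, isOmega_om,
    ⟨isCard_w1 h₁, om_mem_w1 h₁, no_card_om h₁⟩,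
    ⟨isCard_k hu hk, (o_mem_sN h₁ hk).2 trivial, no_card_between h₁ hk⟩, ch h₁, isIdeal hu hk hI,
    precipitous hu hk hd hI, not_chooseWins hk⟩

end

theorem main (X : Type u) [Uncountable X] (U : Ultrafilter X)
    (hU : CardinalInterFilter (U : Filter X) #X) (np : ∀ x, {x} ∉ U) :
    ∃ (M : Type (u + 1)) (E : M → M → Prop), Countable M ∧ WellFounded E ∧ IsZFC E ∧
    ∃ w w1 w2 I, IsOmega E w ∧ IsSuccCard E w w1 ∧ IsSuccCard E w1 w2 ∧ CH E w w1 ∧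
      IsIdeal E I w2 ∧ Precipitous E I w2 ∧ ¬ ChooseWins E w w2 := by
  obtain ⟨r, wo, hr⟩ := Cardinal.exists_ord_eq X
  let _ : LinearOrder X := IsWellOrder.linearOrder r
  let _ : Ms X :=
    { U := U
      wf := ⟨wo.wf⟩
      comp := fun s h H => (Filter.cardinal_iInter_mem h).2 H
      np := np
      small := fun x => card_typein_lt x hr
      unc := aleph0_lt_mk }
  exact main' X

end Pool.Agent.MP_4faeaf_lc
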